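import Pool.Agent.B5.IA1

/-!
Project B5F (MP_d6455f_nt): powers of 5. Definitions. In Pool.Agent.B5: `phi` is the product of 1 - X^n (the pentagonal series), `ex5 c` is c(X^5), `b5 n` the number of 5-regular partitions, `sB` their generating
series, `sB * phi = ex5 phi` (id_B1).
-/

set_option autoImplicit false

namespace Pool.Agent.B5F

open PowerSeries Pool.Agent.B5

noncomputable section

/-- `c (X ^ 25)` -/
def e25 (c : ℤ⟦X⟧) : ℤ⟦X⟧ := PowerSeries.expand 25 (by norm_num) c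

/-- the coefficients at `5 n + r` -/
def V5 (r : ℕ) (c : ℤ⟦X⟧) : ℤ⟦X⟧ := PowerSeries.mk (fun n => PowerSeries.coeff (5 * n + r) c)

/-- the components of `phi` -/
def pA : ℤ⟦X⟧ := V5 0 phi
def pC : ℤ⟦X⟧ := - V5 2 phi

/-- `X * (phi (X^5) / phi)^6` -/
def tt : ℤ⟦X⟧ := PowerSeries.X * sB ^ 6

/-- `X * phi (X^25) / phi` -/
def xx : ℤ⟦X⟧ := PowerSeries.X * sB * ex5 sB

/-- the Kronecker symbol `(12 / u)` -/
def chi12 (u : ℤ) : ℤ := if u % 12 = 1 ∨ u % 12 = 11 then 1 else if u % 12 = 5 ∨ u % 12 = 7 then -1 else 0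

/-- sum of `chi12 u * chi12 v` over the pairs of integers with `u^2 + v^2 = N` -/
def RR (N : ℕ) : ℤ :=
  ∑ p ∈ ((Finset.Icc (-(N : ℤ)) N) ×ˢ (Finset.Icc (-(N : ℤ)) N)).filter (fun p => p.1 ^ 2 + p.2 ^ 2 = (N : ℤ)),
    chi12 p.1 * chi12 p.2

/-- the image of `xx ^ i` under `V5 0`, as a polynomial in `tt` -/
def w : ℕ → Polynomial ℤ
  | 0 => 1
  | 1 => 5 * Polynomial.X
  | 2 => 10 * Polynomial.X + 125 * Polynomial.X ^ 2
  | 3 => 9 * Polynomial.X + 375 * Polynomial.X ^ 2 + 3125 * Polynomial.X ^ 3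
  | 4 => 4 * Polynomial.X + 550 * Polynomial.X ^ 2 + 12500 * Polynomial.X ^ 3 + 78125 * Polynomial.X ^ 4
  | (i + 5) => Polynomial.X * (25 * w (i + 4) + 25 * w (i + 3) + 15 * w (i + 2) + 5 * w (i + 1) + w i)

/-- the operators on polynomials in `tt` -/
def opA (P : Polynomial ℤ) : Polynomial ℤ :=
  P.sum (fun i p => Polynomial.C p * (Polynomial.divX^[i + 1] (w (6 * i + 1))))

def opB (P : Polynomial ℤ) : Polynomial ℤ :=
  P.sum (fun i p => Polynomial.C p * (Polynomial.divX^[i + 1] (w (6 * i + 5))))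

/-- the polynomials attached to the progression `25^r n + (25^r - 1)/6` -/
def PP : ℕ → Polynomial ℤ
  | 0 => 1
  | (r + 1) => opB (opA (PP r))

end

end Pool.Agent.B5F
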