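import Pool.Agent.B5F.Defs

/-!
B5F / FA: the 5-dissection of phi from the pentagonal number theorem (`pentagonalSeries`, coefficient (-1)^a at a(3a-1)/2, a an integer, all other coefficients 0). a(3a-1)/2 mod 5 is 0, 1 or 2, and it is 1 iff
a = 1 mod 5; a = 5b+1: a(3a-1)/2 = 1 + 25 (-b)(3(-b)-1)/2, sign (-1)^(5b+1) = -(-1)^b. So the coefficient of phi at 5n+1 is minus the coefficient of phi at n/5 (0 if 5 does not divide n), that is of
ex5 phi at n. `phi_split`: compare coefficients at 5n+r.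
-/

set_option autoImplicit false

namespace Pool.Agent.B5F

open PowerSeries Pool.Agent.B5

/-- residues of the pentagonal numbers -/
private theorem fa_res (a : ℤ) : (a % 5 = 1 ∧ pentagonal a % 5 = 1) ∨
    (a % 5 ≠ 1 ∧ (pentagonal a % 5 = 0 ∨ pentagonal a % 5 = 2)) := by
  have h := two_mul_natCast_pentagonal a
  obtain ⟨c, r, hr, h0, h5⟩ : ∃ c r : ℤ, a = 5 * c + r ∧ 0 ≤ r ∧ r < 5 :=
    ⟨a / 5, a % 5, by omega, by omega, by omega⟩
  generalize pentagonal a = P at h ⊢
  subst hr
  obtain rfl | rfl | rfl | rfl | rfl : r = 0 ∨ r = 1 ∨ r = 2 ∨ r = 3 ∨ r = 4 := by omega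
  all_goals
    ring_nf at h
    omega

/-- pentagonal numbers which are one modulo five -/
private theorem fa_one {n : ℕ} {a : ℤ} (h : pentagonal a = 5 * n + 1) :
    ∃ k : ℤ, a = 1 - 5 * k ∧ n = 5 * pentagonal k := by
  have h1 : a % 5 = 1 := by
    rcases fa_res a with h2 | h2
    · exact h2.1
    · omega
  obtain ⟨k, rfl⟩ : ∃ k : ℤ, a = 1 - 5 * k := ⟨(1 - a) / 5, by omega⟩
  refine ⟨k, rfl, ?_⟩
  have h2 := two_mul_natCast_pentagonal (1 - 5 * k)
  have h3 := two_mul_natCast_pentagonal k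
  rw [h] at h2
  push_cast at h2
  zify
  linarith

private theorem fa_mul (k : ℤ) : pentagonal (1 - 5 * k) = 25 * pentagonal k + 1 := by
  have h2 := two_mul_natCast_pentagonal (1 - 5 * k)
  have h3 := two_mul_natCast_pentagonal k
  zify
  linarith

private theorem fa_sign (k : ℤ) :
    ((Int.negOnePow (1 - 5 * k) : ℤˣ) : ℤ) = - ((Int.negOnePow k : ℤˣ) : ℤ) := by
  rcases Int.even_or_odd k with hk | hk
  · have h1 : Odd (1 - 5 * k) := by
      obtain ⟨j, rfl⟩ := hk
      exact ⟨-5 * j, by ring⟩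
    rw [Int.negOnePow_even k hk, Int.negOnePow_odd _ h1]
    simp
  · have h1 : Even (1 - 5 * k) := by
      obtain ⟨j, rfl⟩ := hk
      exact ⟨-5 * j - 2, by ring⟩
    rw [Int.negOnePow_odd k hk, Int.negOnePow_even _ h1]
    simp

private theorem fa_V5 (r : ℕ) (c : ℤ⟦X⟧) (n : ℕ) :
    PowerSeries.coeff n (V5 r c) = PowerSeries.coeff (5 * n + r) c := by
  rw [V5, PowerSeries.coeff_mk]

private theorem fa_ex5 (c : ℤ⟦X⟧) (n : ℕ) :
    PowerSeries.coeff n (ex5 c) = if 5 ∣ n then PowerSeries.coeff (n / 5) c else 0 := by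
  rw [ex5, PowerSeries.coeff_expand]

private theorem fa_e25 (c : ℤ⟦X⟧) (n : ℕ) :
    PowerSeries.coeff n (e25 c) = if 25 ∣ n then PowerSeries.coeff (n / 25) c else 0 := by
  rw [e25, PowerSeries.coeff_expand]

private theorem fa_zero {n : ℕ} (h : n % 5 = 3 ∨ n % 5 = 4) : PowerSeries.coeff n phi = 0 := by
  apply PowerSeries.coeff_pentagonalSeries_eq_zero
  rintro ⟨a, rfl⟩
  rcases fa_res a with h2 | h2 <;> omega

theorem phi_c1 : V5 1 phi = - ex5 phi := by
  ext n
  rw [fa_V5, map_neg, fa_ex5]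
  by_cases hp : (5 * n + 1) ∈ Set.range pentagonal
  · obtain ⟨a, ha⟩ := hp
    obtain ⟨k, rfl, hn⟩ := fa_one ha
    have h1 : 5 ∣ n := ⟨_, hn⟩
    have h2 : n / 5 = pentagonal k := by omega
    rw [if_pos h1, h2, ← ha]
    change PowerSeries.coeff (pentagonal (1 - 5 * k)) (PowerSeries.pentagonalSeries ℤ) =
      - PowerSeries.coeff (pentagonal k) (PowerSeries.pentagonalSeries ℤ)
    rw [PowerSeries.coeff_pentagonalSeries_pentagonal,
      PowerSeries.coeff_pentagonalSeries_pentagonal]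
    simpa only [Int.cast_id] using fa_sign k
  · have h0 : PowerSeries.coeff (5 * n + 1) phi = 0 :=
      PowerSeries.coeff_pentagonalSeries_eq_zero _ hp
    rw [h0]
    split_ifs with h1
    · have h2 : PowerSeries.coeff (n / 5) phi = 0 := by
        apply PowerSeries.coeff_pentagonalSeries_eq_zero
        rintro ⟨k, hk⟩
        apply hp
        refine ⟨1 - 5 * k, ?_⟩
        rw [fa_mul, hk]
        omega
      rw [h2, neg_zero]
    · rw [neg_zero]

theorem phi_c3 : V5 3 phi = 0 := by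
  ext n
  rw [fa_V5, map_zero]
  exact fa_zero (by omega)

theorem phi_c4 : V5 4 phi = 0 := by
  ext n
  rw [fa_V5, map_zero]
  exact fa_zero (by omega)

theorem phi_split : phi = ex5 pA - PowerSeries.X * e25 phi - PowerSeries.X ^ 2 * ex5 pC := by
  ext N
  rw [map_sub, map_sub, fa_ex5, PowerSeries.coeff_X_pow_mul']
  obtain ⟨n, r, rfl, hr⟩ : ∃ n r : ℕ, N = 5 * n + r ∧ r < 5 := ⟨N / 5, N % 5, by omega, by omega⟩
  have hX : PowerSeries.coeff (5 * n + r) (PowerSeries.X * e25 phi) =
      if r = 1 then PowerSeries.coeff n (ex5 phi) else 0 := by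
    rcases Nat.eq_zero_or_pos (5 * n + r) with h0 | h0
    · rw [h0, if_neg (by omega), PowerSeries.coeff_zero_X_mul]
    · obtain ⟨s, hs⟩ : ∃ s, 5 * n + r = s + 1 := ⟨5 * n + r - 1, by omega⟩
      rw [hs, PowerSeries.coeff_succ_X_mul, fa_e25]
      split_ifs with h1 h2 h2
      · have e : s / 25 = n / 5 := by omega
        rw [fa_ex5, if_pos (by omega), e]
      · exfalso
        omega
      · rw [fa_ex5, if_neg (by omega)]
      · rfl
  rw [hX]
  obtain rfl | rfl | rfl | rfl | rfl : r = 0 ∨ r = 1 ∨ r = 2 ∨ r = 3 ∨ r = 4 := by omega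
  · rw [if_pos (by omega), if_neg (by omega), show (5 * n + 0) / 5 = n by omega, pA, fa_V5]
    split_ifs with h1
    · rw [fa_ex5 pC, if_neg (by omega)]
      ring
    · ring
  · rw [if_neg (by omega), if_pos rfl]
    have h1 := congrArg (PowerSeries.coeff n) phi_c1
    rw [fa_V5, map_neg] at h1
    rw [h1]
    split_ifs with h2
    · rw [fa_ex5 pC, if_neg (by omega)]
      ring
    · ring
  · rw [if_neg (by omega), if_neg (by omega), if_pos (by omega), fa_ex5, if_pos (by omega),
      show (5 * n + 2 - 2) / 5 = n by omega, pC, map_neg, fa_V5]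
    ring
  · rw [if_neg (by omega), if_neg (by omega), fa_zero (by omega)]
    split_ifs with h2
    · rw [fa_ex5 pC, if_neg (by omega)]
      ring
    · ring
  · rw [if_neg (by omega), if_neg (by omega), fa_zero (by omega)]
    split_ifs with h2
    · rw [fa_ex5 pC, if_neg (by omega)]
      ring
    · ring

end Pool.Agent.B5F
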