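import Pool.Agent.B5F.Defs

/-!
B5F / FB: the coefficient of X^n in phi^2 is the sum of (-1)^(a+b) over the pairs of integers with a(3a-1)/2 + b(3b-1)/2 = n, i.e. with u = 6a-1, v = 6b-1: u^2 + v^2 = 24n+2, and (-1)^a = chi12 u. In RR (24 n + 2)
only pairs with u, v prime to 6 count, chi12 is even, and u -> |.| : exactly one of u, -u is 5 mod 6. So RR is 4 times the coefficient. (Split the sum by (u mod 6, v mod 6) into four parts of equal value.)
-/

set_option autoImplicit false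

namespace Pool.Agent.B5F

open PowerSeries Pool.Agent.B5

private theorem FB_sq {u : ℤ} (h : chi12 u ≠ 0) : ∃ i : ℕ, u ^ 2 = 24 * (i : ℤ) + 1 := by
  have hr : ∃ t r : ℤ, u = 12 * t + r ∧ (r = 1 ∨ r = 5 ∨ r = 7 ∨ r = 11) := by
    refine ⟨u / 12, u % 12, by omega, ?_⟩
    by_contra hcon
    apply h
    unfold chi12
    rw [if_neg (by omega), if_neg (by omega)]
  obtain ⟨t, r, hu, hr⟩ := hr
  have hx : ∃ z : ℤ, u ^ 2 = 24 * z + 1 := by
    rcases hr with rfl | rfl | rfl | rfl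
    · exact ⟨6 * t ^ 2 + t, by rw [hu]; ring⟩
    · exact ⟨6 * t ^ 2 + 5 * t + 1, by rw [hu]; ring⟩
    · exact ⟨6 * t ^ 2 + 7 * t + 2, by rw [hu]; ring⟩
    · exact ⟨6 * t ^ 2 + 11 * t + 5, by rw [hu]; ring⟩
  obtain ⟨z, hz⟩ := hx
  have hz0 : 0 ≤ z := by
    have := sq_nonneg u
    omega
  exact ⟨z.toNat, by rw [hz, Int.toNat_of_nonneg hz0]⟩

private theorem FB_res {u : ℤ} {i : ℕ} (h : u ^ 2 = 24 * (i : ℤ) + 1) :
    ∃ k : ℤ, (u = 6 * k - 1 ∨ u = -(6 * k - 1)) ∧ pentagonal k = i := by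
  have h6 : u % 6 = 1 ∨ u % 6 = 5 := by
    by_contra hcon
    have h1 : u = 6 * (u / 6) + u % 6 := by omega
    obtain ⟨q, hq⟩ : ∃ q, q = u / 6 := ⟨_, rfl⟩
    rw [← hq] at h1
    have h2 : u % 6 = 0 ∨ u % 6 = 2 ∨ u % 6 = 3 ∨ u % 6 = 4 := by omega
    rcases h2 with e | e | e | e <;> rw [e] at h1 <;> rw [h1] at h
    · have : (6 * q + 0) ^ 2 = 6 * (6 * q ^ 2) := by ring
      omega
    · have : (6 * q + 2) ^ 2 = 6 * (6 * q ^ 2 + 4 * q) + 4 := by ring
      omega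
    · have : (6 * q + 3) ^ 2 = 6 * (6 * q ^ 2 + 6 * q + 1) + 3 := by ring
      omega
    · have : (6 * q + 4) ^ 2 = 6 * (6 * q ^ 2 + 8 * q + 2) + 4 := by ring
      omega
  have hk : ∃ k : ℤ, u = 6 * k - 1 ∨ u = -(6 * k - 1) := by
    rcases h6 with e | e
    · exact ⟨-(u / 6), Or.inr (by omega)⟩
    · exact ⟨u / 6 + 1, Or.inl (by omega)⟩
  obtain ⟨k, hk⟩ := hk
  refine ⟨k, hk, ?_⟩
  have h1 : (6 * k - 1) ^ 2 = 24 * (i : ℤ) + 1 := by
    rcases hk with e | e
    · rw [← e]; exact h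
    · rw [← h, e]; ring
  have h2 := two_mul_natCast_pentagonal k
  have h3 : (pentagonal k : ℤ) = (i : ℤ) := by linarith [h1, h2]
  exact_mod_cast h3

private theorem FB_chi (k : ℤ) : chi12 (6 * k - 1) = (Int.negOnePow k : ℤ) ∧
    chi12 (-(6 * k - 1)) = (Int.negOnePow k : ℤ) := by
  rcases Int.even_or_odd k with hk | hk
  · obtain ⟨m, rfl⟩ := hk
    rw [Int.negOnePow_even _ ⟨m, rfl⟩]
    unfold chi12
    rw [if_pos (by omega), if_pos (by omega)]
    exact ⟨rfl, rfl⟩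
  · obtain ⟨m, rfl⟩ := hk
    rw [Int.negOnePow_odd _ ⟨m, rfl⟩]
    unfold chi12
    rw [if_neg (by omega), if_pos (by omega), if_neg (by omega), if_pos (by omega)]
    exact ⟨rfl, rfl⟩

private theorem FB_one (n i : ℕ) (hi : i ≤ n) :
    ∑ u ∈ Finset.Icc (-((24 * n + 2 : ℕ) : ℤ)) ((24 * n + 2 : ℕ) : ℤ),
      (if u ^ 2 = 24 * (i : ℤ) + 1 then chi12 u else 0) = 2 * PowerSeries.coeff i phi := by
  by_cases hp : ∃ k : ℤ, pentagonal k = i
  · obtain ⟨k, hk⟩ := hp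
    have hc : PowerSeries.coeff i phi = (Int.negOnePow k : ℤ) := by
      rw [← hk]
      have := PowerSeries.coeff_pentagonalSeries_pentagonal ℤ k
      rw [phi, this]
      rfl
    have h2 := two_mul_natCast_pentagonal k
    rw [hk] at h2
    have hsq : (6 * k - 1) ^ 2 = 24 * (i : ℤ) + 1 := by linarith
    have hb : -((24 * n + 2 : ℕ) : ℤ) ≤ 6 * k - 1 ∧ 6 * k - 1 ≤ ((24 * n + 2 : ℕ) : ℤ) := by
      push_cast
      have hi' : (i : ℤ) ≤ n := by exact_mod_cast hi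
      constructor <;> nlinarith
    have hne : (6 * k - 1) ≠ -(6 * k - 1) := by omega
    have hfil : ∀ u ∈ Finset.Icc (-((24 * n + 2 : ℕ) : ℤ)) ((24 * n + 2 : ℕ) : ℤ),
        u ∉ ({6 * k - 1, -(6 * k - 1)} : Finset ℤ) →
        (if u ^ 2 = 24 * (i : ℤ) + 1 then chi12 u else 0) = 0 := by
      intro u _ hu
      rw [if_neg]
      intro h
      apply hu
      rw [← hsq] at h
      rcases sq_eq_sq_iff_eq_or_eq_neg.1 h with e | e
      · rw [e]; simp
      · rw [e]; simp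
    have hsub : ({6 * k - 1, -(6 * k - 1)} : Finset ℤ) ⊆
        Finset.Icc (-((24 * n + 2 : ℕ) : ℤ)) ((24 * n + 2 : ℕ) : ℤ) := by
      intro u hu
      rw [Finset.mem_insert, Finset.mem_singleton] at hu
      rw [Finset.mem_Icc]
      rcases hu with rfl | rfl
      · exact hb
      · constructor <;> omega
    rw [← Finset.sum_subset hsub hfil, Finset.sum_pair hne, if_pos hsq,
      if_pos (by rw [neg_sq]; exact hsq), (FB_chi k).1, (FB_chi k).2, hc]
    ring
  · have hc : PowerSeries.coeff i phi = 0 := by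
      rw [phi]
      refine PowerSeries.coeff_pentagonalSeries_eq_zero ℤ ?_
      rintro ⟨k, hk⟩
      exact hp ⟨k, hk⟩
    rw [hc, mul_zero]
    refine Finset.sum_eq_zero fun u _ => ?_
    rw [if_neg]
    intro h
    obtain ⟨k, -, hk⟩ := FB_res h
    exact hp ⟨k, hk⟩

private theorem FB_pair (n : ℕ) (u v : ℤ) :
    (if u ^ 2 + v ^ 2 = ((24 * n + 2 : ℕ) : ℤ) then chi12 u * chi12 v else 0) =
      ∑ p ∈ Finset.HasAntidiagonal.antidiagonal n, (if u ^ 2 = 24 * (p.1 : ℤ) + 1 then chi12 u else 0) *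
        (if v ^ 2 = 24 * (p.2 : ℤ) + 1 then chi12 v else 0) := by
  by_cases hu : chi12 u = 0
  · rw [hu]
    simp
  by_cases hv : chi12 v = 0
  · rw [hv]
    simp
  obtain ⟨i, hi⟩ := FB_sq hu
  obtain ⟨j, hj⟩ := FB_sq hv
  by_cases h : i + j = n
  · rw [if_pos (by rw [hi, hj, ← h]; push_cast; ring),
      Finset.sum_eq_single_of_mem (i, j) (Finset.HasAntidiagonal.mem_antidiagonal.2 h)]
    · rw [if_pos hi, if_pos hj]
    · rintro ⟨a, b⟩ - hne
      have : ¬ (u ^ 2 = 24 * (a : ℤ) + 1 ∧ v ^ 2 = 24 * (b : ℤ) + 1) := by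
        rintro ⟨h1, h2⟩
        apply hne
        rw [Prod.mk.injEq]
        constructor <;> omega
      by_cases h1 : u ^ 2 = 24 * (a : ℤ) + 1
      · rw [if_neg (c := v ^ 2 = _) (fun h2 => this ⟨h1, h2⟩), mul_zero]
      · rw [if_neg h1, zero_mul]
  · rw [if_neg]
    · symm
      refine Finset.sum_eq_zero ?_
      rintro ⟨a, b⟩ hab
      rw [Finset.HasAntidiagonal.mem_antidiagonal] at hab
      simp only at hab
      by_cases h1 : u ^ 2 = 24 * (a : ℤ) + 1
      · by_cases h2 : v ^ 2 = 24 * (b : ℤ) + 1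
        · exfalso
          apply h
          omega
        · rw [if_neg h2, mul_zero]
      · rw [if_neg h1, zero_mul]
    · rw [hi, hj]
      push_cast
      intro hcon
      apply h
      omega

theorem coeff_phi_sq (n : ℕ) : 4 * PowerSeries.coeff n (phi ^ 2) = RR (24 * n + 2) := by
  unfold RR
  rw [Finset.sum_filter, Finset.sum_product]
  simp only [FB_pair]
  have e1 : ∀ u ∈ Finset.Icc (-((24 * n + 2 : ℕ) : ℤ)) ((24 * n + 2 : ℕ) : ℤ),
      ∑ v ∈ Finset.Icc (-((24 * n + 2 : ℕ) : ℤ)) ((24 * n + 2 : ℕ) : ℤ),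
        ∑ p ∈ Finset.HasAntidiagonal.antidiagonal n, (if u ^ 2 = 24 * (p.1 : ℤ) + 1 then chi12 u else 0) *
          (if v ^ 2 = 24 * (p.2 : ℤ) + 1 then chi12 v else 0) =
      ∑ p ∈ Finset.HasAntidiagonal.antidiagonal n, (if u ^ 2 = 24 * (p.1 : ℤ) + 1 then chi12 u else 0) *
          (2 * PowerSeries.coeff p.2 phi) := by
    intro u _
    rw [Finset.sum_comm]
    refine Finset.sum_congr rfl fun p hp => ?_
    rw [← Finset.mul_sum, FB_one n p.2 (by have := Finset.HasAntidiagonal.mem_antidiagonal.1 hp; omega)]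
  rw [Finset.sum_congr rfl e1, Finset.sum_comm, pow_two, PowerSeries.coeff_mul, Finset.mul_sum]
  refine Finset.sum_congr rfl fun p hp => ?_
  rw [← Finset.sum_mul, FB_one n p.1 (by have := Finset.HasAntidiagonal.mem_antidiagonal.1 hp; omega)]
  ring

end Pool.Agent.B5F
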