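import Pool.Agent.B5F.Defs

/-!
B5F / FC: Gaussian integers z = u + i v with u^2 + v^2 = 5 N. 5 divides (2u+v)(2u-v) = 4u^2 - v^2 = 5u^2 - 5N, so 5 | 2u+v (S+: 2+i divides z) or 5 | 2u-v (S-: 2-i divides z); both iff 5 | u and 5 | v.
The map (u,v) -> ((3u+4v)/5, (3v-4u)/5), multiplication by (3-4i)/5, is a bijection from S+ to S-, with inverse (u,v) -> ((3u-4v)/5, (4u+3v)/5), preserving u^2+v^2, and
chi12(u') chi12(v') = - chi12(u) chi12(v): modulo 12, 1/5 = 5, u' = 3u + 8v, v' = 3v - 8u = 3v + 4u mod 12 (check all residues by `decide`; if 5 u' = 3u+4v then u' = 5(3u+4v) mod 12). So the sum over S+ is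
minus the sum over S-, so the sum over S+ union S- (all pairs) is minus the sum over the intersection, which is the sum over (5u'', 5v''), chi12(5u'')chi12(5v'') = chi12(u'')chi12(v''), u''^2+v''^2 = N/5, and it is
empty if 5 does not divide N.
-/

set_option autoImplicit false

namespace Pool.Agent.B5F

open PowerSeries Pool.Agent.B5

private theorem fc_mem (M : ℕ) (p : ℤ × ℤ) :
    p ∈ ((Finset.Icc (-(M : ℤ)) M) ×ˢ (Finset.Icc (-(M : ℤ)) M)).filter
      (fun p => p.1 ^ 2 + p.2 ^ 2 = (M : ℤ)) ↔ p.1 ^ 2 + p.2 ^ 2 = (M : ℤ) := by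
  rw [Finset.mem_filter]
  constructor
  · exact fun h => h.2
  · intro h
    refine ⟨?_, h⟩
    have key : ∀ x y : ℤ, x ^ 2 + y ^ 2 = M → -(M : ℤ) ≤ x ∧ x ≤ M := by
      intro x y hxy
      have hy : 0 ≤ y ^ 2 := sq_nonneg y
      have hx : x ^ 2 ≤ M := by linarith
      constructor
      · by_contra hc
        push Not at hc
        nlinarith
      · by_contra hc
        push Not at hc
        nlinarith
    rw [Finset.mem_product, Finset.mem_Icc, Finset.mem_Icc]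
    exact ⟨key _ _ h, key p.2 p.1 (by linarith)⟩

private theorem fc_chi (u v u' v' : ℤ) (h1 : 5 * u' = 3 * u + 4 * v) (h2 : 5 * v' = 3 * v - 4 * u) :
    chi12 u' * chi12 v' = - (chi12 u * chi12 v) := by
  have e1 : u' % 12 = (3 * (u % 12) + 8 * (v % 12)) % 12 := by omega
  have e2 : v' % 12 = (3 * (v % 12) + 4 * (u % 12)) % 12 := by omega
  unfold chi12
  rw [e1, e2]
  have a0 := Int.emod_nonneg u (show (12 : ℤ) ≠ 0 by norm_num)
  have a1 := Int.emod_lt_of_pos u (show (0 : ℤ) < 12 by norm_num)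
  have b0 := Int.emod_nonneg v (show (12 : ℤ) ≠ 0 by norm_num)
  have b1 := Int.emod_lt_of_pos v (show (0 : ℤ) < 12 by norm_num)
  generalize u % 12 = a at *
  generalize v % 12 = b at *
  interval_cases a <;> interval_cases b <;> rfl

private theorem fc_chi5 (u v : ℤ) : chi12 (5 * u) * chi12 (5 * v) = chi12 u * chi12 v := by
  have e1 : (5 * u) % 12 = (5 * (u % 12)) % 12 := by omega
  have e2 : (5 * v) % 12 = (5 * (v % 12)) % 12 := by omega
  unfold chi12
  rw [e1, e2]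
  have a0 := Int.emod_nonneg u (show (12 : ℤ) ≠ 0 by norm_num)
  have a1 := Int.emod_lt_of_pos u (show (0 : ℤ) < 12 by norm_num)
  have b0 := Int.emod_nonneg v (show (12 : ℤ) ≠ 0 by norm_num)
  have b1 := Int.emod_lt_of_pos v (show (0 : ℤ) < 12 by norm_num)
  generalize u % 12 = a at *
  generalize v % 12 = b at *
  interval_cases a <;> interval_cases b <;> rfl

theorem RR_five (N : ℕ) : RR (5 * N) = if 5 ∣ N then - RR (N / 5) else 0 := by
  classical
  set S : Finset (ℤ × ℤ) := ((Finset.Icc (-((5 * N : ℕ) : ℤ)) ((5 * N : ℕ) : ℤ)) ×ˢ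
    (Finset.Icc (-((5 * N : ℕ) : ℤ)) ((5 * N : ℕ) : ℤ))).filter
      (fun p => p.1 ^ 2 + p.2 ^ 2 = ((5 * N : ℕ) : ℤ)) with hS
  have hmS : ∀ p, p ∈ S ↔ p.1 ^ 2 + p.2 ^ 2 = 5 * (N : ℤ) := by
    intro p; rw [hS, fc_mem]; push_cast; rfl
  have hRR : RR (5 * N) = ∑ p ∈ S, chi12 p.1 * chi12 p.2 := rfl
  set SP := S.filter (fun p => (5 : ℤ) ∣ 2 * p.1 + p.2) with hSP
  set SM := S.filter (fun p => (5 : ℤ) ∣ 2 * p.1 - p.2) with hSM
  have m1 : ∀ p, p ∈ SP ↔ p.1 ^ 2 + p.2 ^ 2 = 5 * (N : ℤ) ∧ (5 : ℤ) ∣ 2 * p.1 + p.2 := by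
    intro p
    rw [hSP, Finset.mem_filter, hmS]
  have m2 : ∀ p, p ∈ SM ↔ p.1 ^ 2 + p.2 ^ 2 = 5 * (N : ℤ) ∧ (5 : ℤ) ∣ 2 * p.1 - p.2 := by
    intro p
    rw [hSM, Finset.mem_filter, hmS]
  have hU : SP ∪ SM = S := by
    ext p
    rw [Finset.mem_union, m1, m2, hmS]
    constructor
    · rintro (h | h) <;> exact h.1
    · intro h
      have h2 : (5 : ℤ) ∣ (2 * p.1 + p.2) * (2 * p.1 - p.2) :=
        ⟨p.1 ^ 2 - N, by linear_combination (-1 : ℤ) * h⟩
      rcases (Int.prime_iff_natAbs_prime.2 (by norm_num : Nat.Prime (Int.natAbs 5))).dvd_or_dvd h2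
        with h3 | h3
      · exact Or.inl ⟨h, h3⟩
      · exact Or.inr ⟨h, h3⟩
  have hbij : ∑ p ∈ SP, chi12 p.1 * chi12 p.2 = - ∑ p ∈ SM, chi12 p.1 * chi12 p.2 := by
    rw [← Finset.sum_neg_distrib]
    refine Finset.sum_nbij' (fun p => ((3 * p.1 + 4 * p.2) / 5, (3 * p.2 - 4 * p.1) / 5))
      (fun p => ((3 * p.1 - 4 * p.2) / 5, (4 * p.1 + 3 * p.2) / 5)) ?_ ?_ ?_ ?_ ?_
    · rintro ⟨u, v⟩ hp
      rw [hSP, Finset.mem_filter, hmS] at hp
      obtain ⟨h1, h2⟩ := hp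
      simp only at h1 h2
      rw [hSM, Finset.mem_filter, hmS]
      simp only
      have e1 : 5 * ((3 * u + 4 * v) / 5) = 3 * u + 4 * v := by omega
      have e2 : 5 * ((3 * v - 4 * u) / 5) = 3 * v - 4 * u := by omega
      refine ⟨?_, by omega⟩
      generalize (3 * u + 4 * v) / 5 = a at *
      generalize (3 * v - 4 * u) / 5 = b at *
      have : 25 * (a ^ 2 + b ^ 2) = 25 * (u ^ 2 + v ^ 2) := by
        linear_combination (5 * a + 3 * u + 4 * v) * e1 + (5 * b + 3 * v - 4 * u) * e2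
      linarith
    · rintro ⟨u, v⟩ hp
      rw [hSM, Finset.mem_filter, hmS] at hp
      obtain ⟨h1, h2⟩ := hp
      simp only at h1 h2
      rw [hSP, Finset.mem_filter, hmS]
      simp only
      have e1 : 5 * ((3 * u - 4 * v) / 5) = 3 * u - 4 * v := by omega
      have e2 : 5 * ((4 * u + 3 * v) / 5) = 4 * u + 3 * v := by omega
      refine ⟨?_, by omega⟩
      generalize (3 * u - 4 * v) / 5 = a at *
      generalize (4 * u + 3 * v) / 5 = b at *
      have : 25 * (a ^ 2 + b ^ 2) = 25 * (u ^ 2 + v ^ 2) := by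
        linear_combination (5 * a + 3 * u - 4 * v) * e1 + (5 * b + 4 * u + 3 * v) * e2
      linarith
    · rintro ⟨u, v⟩ hp
      rw [hSP, Finset.mem_filter] at hp
      obtain ⟨_, h2⟩ := hp
      simp only at h2
      simp only [Prod.mk.injEq]
      constructor <;> omega
    · rintro ⟨u, v⟩ hp
      rw [hSM, Finset.mem_filter] at hp
      obtain ⟨_, h2⟩ := hp
      simp only at h2
      simp only [Prod.mk.injEq]
      constructor <;> omega
    · rintro ⟨u, v⟩ hp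
      rw [hSP, Finset.mem_filter] at hp
      obtain ⟨_, h2⟩ := hp
      simp only at h2
      simp only
      rw [fc_chi u v ((3 * u + 4 * v) / 5) ((3 * v - 4 * u) / 5) (by omega) (by omega), neg_neg]
  have hsum : RR (5 * N) = - ∑ p ∈ SP ∩ SM, chi12 p.1 * chi12 p.2 := by
    have h1 := Finset.sum_union_inter (s₁ := SP) (s₂ := SM) (f := fun p => chi12 p.1 * chi12 p.2)
    rw [hU] at h1
    rw [hRR]
    linarith
  have hI : ∀ p, p ∈ SP ∩ SM ↔ p.1 ^ 2 + p.2 ^ 2 = 5 * (N : ℤ) ∧ (5 : ℤ) ∣ p.1 ∧ (5 : ℤ) ∣ p.2 := by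
    intro p
    rw [Finset.mem_inter, m1, m2]
    constructor
    · rintro ⟨⟨h1, h2⟩, _, h3⟩
      exact ⟨h1, by omega, by omega⟩
    · rintro ⟨h1, h2, h3⟩
      exact ⟨⟨h1, by omega⟩, h1, by omega⟩
  rw [hsum]
  split_ifs with h5
  · obtain ⟨M, rfl⟩ := h5
    have hM : 5 * M / 5 = M := by omega
    rw [hM]
    congr 1
    unfold RR
    refine Finset.sum_nbij' (fun p => (p.1 / 5, p.2 / 5)) (fun p => (5 * p.1, 5 * p.2)) ?_ ?_ ?_ ?_ ?_
    · rintro ⟨u, v⟩ hp
      rw [hI] at hp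
      obtain ⟨h1, h2, h3⟩ := hp
      rw [fc_mem]
      simp only at h1 h2 h3 ⊢
      have e1 : 5 * (u / 5) = u := by omega
      have e2 : 5 * (v / 5) = v := by omega
      generalize u / 5 = a at *
      generalize v / 5 = b at *
      subst e1 e2
      push_cast at h1
      linarith
    · rintro ⟨u, v⟩ hp
      rw [fc_mem] at hp
      rw [hI]
      simp only at hp ⊢
      refine ⟨?_, dvd_mul_right _ _, dvd_mul_right _ _⟩
      push_cast
      linear_combination 25 * hp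
    · rintro ⟨u, v⟩ hp
      rw [hI] at hp
      obtain ⟨h1, h2, h3⟩ := hp
      simp only at h2 h3
      simp only [Prod.mk.injEq]
      constructor <;> omega
    · rintro ⟨u, v⟩ _
      simp only [Prod.mk.injEq]
      constructor <;> omega
    · rintro ⟨u, v⟩ hp
      rw [hI] at hp
      obtain ⟨h1, h2, h3⟩ := hp
      simp only at h2 h3
      simp only
      have e1 : 5 * (u / 5) = u := by omega
      have e2 : 5 * (v / 5) = v := by omega
      rw [← fc_chi5 (u / 5) (v / 5), e1, e2]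
  · rw [neg_eq_zero]
    apply Finset.sum_eq_zero
    intro p hp
    exfalso
    rw [hI] at hp
    obtain ⟨h1, ⟨a, ha⟩, ⟨b, hb⟩⟩ := hp
    apply h5
    rw [ha, hb] at h1
    have h2 : (N : ℤ) = 5 * (a ^ 2 + b ^ 2) := by linarith
    have h3 : (5 : ℤ) ∣ (N : ℤ) := ⟨_, h2⟩
    exact_mod_cast h3

end Pool.Agent.B5F
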