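import Pool.Agent.B5F.FA
import Pool.Agent.B5F.FB
import Pool.Agent.B5F.FC

/-!
B5F / FD: by FB, FC: 4 coeff (5n+2) (phi^2) = RR (120 n + 50) = RR (5 (24 n + 10)); 5 | 24n+10 iff 5 | n; for n = 5m this is - RR (24 m + 2) = - 4 coeff m (phi^2). So V5 2 (phi^2) = - ex5 (phi^2). On the other hand,
with `phi_split`, A = ex5 pA, B = e25 phi = ex5 (ex5 phi), C = ex5 pC: phi^2 = A^2 - 2XAB + X^2 (B^2 - 2AC) + 2X^3 BC + X^4 C^2, so V5 2 (phi^2) = (ex5 phi)^2 - 2 pA pC.
-/

set_option autoImplicit false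

namespace Pool.Agent.B5F

open PowerSeries Pool.Agent.B5

private theorem FD_e25 (c : ℤ⟦X⟧) : e25 c = ex5 (ex5 c) := by
  ext n
  unfold e25 ex5
  rw [PowerSeries.coeff_expand, PowerSeries.coeff_expand]
  by_cases h : 25 ∣ n
  · have h5 : 5 ∣ n := (by norm_num : 5 ∣ 25).trans h
    obtain ⟨m, rfl⟩ := h
    have e1 : 25 * m / 5 = 5 * m := by omega
    have e2 : 25 * m / 25 = m := by omega
    have e3 : 5 * m / 5 = m := by omega
    rw [if_pos (Dvd.intro _ rfl), if_pos h5, PowerSeries.coeff_expand, e1, e2,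
      if_pos (Dvd.intro _ rfl), e3]
  · rw [if_neg h]
    by_cases h5 : 5 ∣ n
    · obtain ⟨m, rfl⟩ := h5
      have e1 : 5 * m / 5 = m := by omega
      rw [if_pos (Dvd.intro _ rfl), PowerSeries.coeff_expand, e1, if_neg]
      rintro ⟨k, rfl⟩
      exact h ⟨k, by ring⟩
    · rw [if_neg h5]

private theorem FD_mono (r s n : ℕ) (hr : r < 5) (hs : s < 5) (c : ℤ⟦X⟧) :
    PowerSeries.coeff (5 * n + r) (PowerSeries.X ^ s * ex5 c) =
      if r = s then PowerSeries.coeff n c else 0 := by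
  rw [PowerSeries.coeff_X_pow_mul']
  unfold ex5
  by_cases h : s ≤ 5 * n + r
  · rw [if_pos h, PowerSeries.coeff_expand]
    by_cases hrs : r = s
    · subst hrs
      have e1 : 5 * n + r - r = 5 * n := by omega
      have e2 : 5 * n / 5 = n := by omega
      rw [e1, if_pos (Dvd.intro _ rfl), if_pos rfl, e2]
    · rw [if_neg hrs, if_neg]
      omega
  · rw [if_neg h, if_neg]
    omega

private theorem FD_ex5_mul (a b : ℤ⟦X⟧) : ex5 (a * b) = ex5 a * ex5 b := by
  unfold ex5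
  exact map_mul _ _ _

private theorem FD_sq (n : ℕ) : PowerSeries.coeff (5 * n + 2) (phi ^ 2) =
    - PowerSeries.coeff n ((ex5 phi) ^ 2) := by
  have h1 := coeff_phi_sq (5 * n + 2)
  have e1 : 24 * (5 * n + 2) + 2 = 5 * (24 * n + 10) := by ring
  rw [e1, RR_five] at h1
  have e2 : (ex5 phi) ^ 2 = ex5 (phi ^ 2) := by
    rw [pow_two, pow_two, FD_ex5_mul]
  rw [e2]
  unfold ex5
  rw [PowerSeries.coeff_expand]
  by_cases h : 5 ∣ n
  · obtain ⟨m, rfl⟩ := h
    have e3 : (24 * (5 * m) + 10) / 5 = 24 * m + 2 := by omega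
    have e4 : 5 * m / 5 = m := by omega
    rw [if_pos (by omega), e3, ← coeff_phi_sq m] at h1
    rw [if_pos (Dvd.intro _ rfl), e4]
    linarith
  · rw [if_neg (by omega)] at h1
    rw [if_neg h]
    linarith

theorem pA_mul_pC : pA * pC = (ex5 phi) ^ 2 := by
  ext n
  have h1 : phi ^ 2 = PowerSeries.X ^ 0 * ex5 (pA * pA) +
      PowerSeries.X ^ 1 * ex5 (-2 * (pA * ex5 phi)) +
      PowerSeries.X ^ 2 * ex5 (ex5 phi * ex5 phi - 2 * (pA * pC)) +
      PowerSeries.X ^ 3 * ex5 (2 * (ex5 phi * pC)) + PowerSeries.X ^ 4 * ex5 (pC * pC) := by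
    have e := phi_split
    rw [FD_e25] at e
    have h2 : ex5 (-2 * (pA * ex5 phi)) = -2 * (ex5 pA * ex5 (ex5 phi)) := by
      unfold ex5
      simp only [map_mul, map_neg, map_ofNat]
    have h3 : ex5 (ex5 phi * ex5 phi - 2 * (pA * pC)) =
        ex5 (ex5 phi) * ex5 (ex5 phi) - 2 * (ex5 pA * ex5 pC) := by
      unfold ex5
      simp only [map_mul, map_sub, map_ofNat]
    have h4 : ex5 (2 * (ex5 phi * pC)) = 2 * (ex5 (ex5 phi) * ex5 pC) := by
      unfold ex5
      simp only [map_mul, map_ofNat]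
    rw [h2, h3, h4, FD_ex5_mul, FD_ex5_mul]
    generalize ex5 pA = A at e
    generalize ex5 (ex5 phi) = B at e
    generalize ex5 pC = C at e
    rw [e]
    ring
  have h2 := congrArg (PowerSeries.coeff (5 * n + 2)) h1
  rw [FD_sq, map_add, map_add, map_add, map_add, FD_mono 2 0 n (by omega) (by omega),
    FD_mono 2 1 n (by omega) (by omega), FD_mono 2 2 n (by omega) (by omega),
    FD_mono 2 3 n (by omega) (by omega), FD_mono 2 4 n (by omega) (by omega)] at h2
  simp only [OfNat.ofNat_ne_zero, if_false, if_true, OfNat.ofNat_ne_one, zero_add, add_zero,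
    (by decide : (2 : ℕ) ≠ 3), (by decide : (2 : ℕ) ≠ 4)] at h2
  have e5 : (2 : ℤ⟦X⟧) * (pA * pC) = pA * pC + pA * pC := by ring
  rw [map_sub, e5, map_add, ← pow_two] at h2
  linarith

end Pool.Agent.B5F
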