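import Pool.Agent.B5F.Defs

/-!
B5F / FE: over the complex numbers let z = exp(2 pi i/5), and `rescale (z^k)`: c(X) -> c(z^k X), a continuous ring homomorphism (coefficientwise topology, `PowerSeries.WithPiTopology`).
The product over k < 5 of (1 - z^(k n) X^n) is (1 - X^n)^5 if 5 | n and 1 - X^(5n) otherwise. phi is the infinite product (HasProd, `hasProd_one_sub_X_pow`; see Pool.Agent.B5.IA1 for the technique) of 1 - X^(n+1).
Multiply the five rescaled products and the one for phi(X^25) = product over m of 1 - X^(25 m) (reindexed as the product over n of 1 - X^(5n) if 5 | n, 1 otherwise): the result is the product over all n of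
(1 - X^(5n)) times (1 - X^n)^5 if 5 | n, i.e. phi(X^5)^6.
-/

set_option autoImplicit false

namespace Pool.Agent.B5F

open PowerSeries Pool.Agent.B5

/-- `phi` over the complex numbers -/
noncomputable def phiC : ℂ⟦X⟧ := PowerSeries.map (Int.castRingHom ℂ) phi

section FE

open Filter Topology
open scoped PowerSeries.WithPiTopology

private theorem fe_key {R : Type*} [CommRing R] (c Y : R) (h : 1 + c + c ^ 2 + c ^ 3 + c ^ 4 = 0) :
    ∏ k ∈ Finset.range 5, (1 - c ^ k * Y) = 1 - Y ^ 5 := by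
  simp only [Finset.prod_range_succ, Finset.prod_range_zero]
  linear_combination (-Y + Y ^ 5 + c * Y ^ 2 - c * Y ^ 5 + c ^ 3 * Y ^ 2 - c ^ 3 * Y ^ 3 -
    c ^ 5 * Y ^ 3 + c ^ 5 * Y ^ 5 + c ^ 6 * Y ^ 4 - c ^ 6 * Y ^ 5) * h

private theorem fe_map_cont :
    Continuous (PowerSeries.map (Int.castRingHom ℂ) : ℤ⟦X⟧ → ℂ⟦X⟧) := by
  rw [continuous_iff_continuousAt]
  intro c
  rw [ContinuousAt, PowerSeries.WithPiTopology.tendsto_iff_coeff_tendsto]
  intro d
  simp only [PowerSeries.coeff_map]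
  exact ((continuous_of_discreteTopology (f := (Int.castRingHom ℂ))).comp
    (PowerSeries.WithPiTopology.continuous_coeff ℤ d)).continuousAt

private theorem fe_expand_cont (m : ℕ) (hm : m ≠ 0) :
    Continuous (fun c : ℂ⟦X⟧ => PowerSeries.expand m hm c) := by
  rw [continuous_iff_continuousAt]
  intro c
  rw [ContinuousAt, PowerSeries.WithPiTopology.tendsto_iff_coeff_tendsto]
  intro d
  simp only [PowerSeries.coeff_expand]
  by_cases h : m ∣ d
  · simp only [h, if_true]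
    exact (PowerSeries.WithPiTopology.continuous_coeff ℂ (d / m)).continuousAt
  · simp only [h, if_false]
    exact tendsto_const_nhds

private theorem fe_rescale_cont (a : ℂ) :
    Continuous (fun c : ℂ⟦X⟧ => PowerSeries.rescale a c) := by
  rw [continuous_iff_continuousAt]
  intro c
  rw [ContinuousAt, PowerSeries.WithPiTopology.tendsto_iff_coeff_tendsto]
  intro d
  simp only [PowerSeries.coeff_rescale]
  exact ((continuous_const.mul (PowerSeries.WithPiTopology.continuous_coeff ℂ d))).continuousAt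

private theorem fe_phiC : HasProd (fun n : ℕ => (1 - (X : ℂ⟦X⟧) ^ (n + 1))) phiC := by
  have h1 := PowerSeries.WithPiTopology.hasProd_one_sub_X_pow ℤ
  have h2 := h1.map (PowerSeries.map (Int.castRingHom ℂ)) fe_map_cont
  have h3 : ((PowerSeries.map (Int.castRingHom ℂ)) ∘
      (fun n : ℕ => (1 - X ^ (n + 1) : ℤ⟦X⟧))) = fun i : ℕ => (1 - (X : ℂ⟦X⟧) ^ (i + 1)) := by
    funext i
    simp only [Function.comp_apply, map_sub, map_one, map_pow, PowerSeries.map_X]
  rw [h3] at h2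
  exact h2

private theorem fe_rescale (a : ℂ) :
    HasProd (fun n : ℕ => (1 - PowerSeries.C (a ^ (n + 1)) * (X : ℂ⟦X⟧) ^ (n + 1)))
      (PowerSeries.rescale a phiC) := by
  have h2 := fe_phiC.map (PowerSeries.rescale a) (fe_rescale_cont a)
  have h3 : ((PowerSeries.rescale a) ∘
      (fun n : ℕ => (1 - X ^ (n + 1) : ℂ⟦X⟧))) =
      fun i : ℕ => (1 - PowerSeries.C (a ^ (i + 1)) * (X : ℂ⟦X⟧) ^ (i + 1)) := by
    funext i
    simp only [Function.comp_apply, map_sub, map_one, map_pow, PowerSeries.rescale_X, mul_pow]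
  rw [h3] at h2
  exact h2

private theorem fe_expand (m : ℕ) (hm : m ≠ 0) :
    HasProd (fun i : ℕ => (1 - (X : ℂ⟦X⟧) ^ (m * (i + 1)))) (PowerSeries.expand m hm phiC) := by
  have h2 := fe_phiC.map (PowerSeries.expand m hm : ℂ⟦X⟧ →ₐ[ℂ] ℂ⟦X⟧) (fe_expand_cont m hm)
  have h3 : ((PowerSeries.expand m hm : ℂ⟦X⟧ →ₐ[ℂ] ℂ⟦X⟧) ∘
      (fun n : ℕ => (1 - X ^ (n + 1) : ℂ⟦X⟧))) =
      fun i : ℕ => (1 - (X : ℂ⟦X⟧) ^ (m * (i + 1))) := by
    funext i
    simp only [Function.comp_apply, map_sub, map_one, map_pow, PowerSeries.expand_X, ← pow_mul]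
  rw [h3] at h2
  exact h2

private theorem fe_reindex (f : ℕ → ℂ⟦X⟧) (a : ℂ⟦X⟧)
    (h : HasProd (fun i : ℕ => f (5 * (i + 1))) a) :
    HasProd (fun i : ℕ => if 5 ∣ i + 1 then f (i + 1) else 1) a := by
  have hinj : Function.Injective (fun i : ℕ => 5 * (i + 1) - 1) := by
    intro a b h
    simp only at h
    omega
  rw [← hinj.hasProd_iff]
  · have h1 : ((fun i : ℕ => if 5 ∣ i + 1 then f (i + 1) else 1) ∘
        (fun i : ℕ => 5 * (i + 1) - 1)) = fun i : ℕ => f (5 * (i + 1)) := by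
      funext i
      have h2 : 5 * (i + 1) - 1 + 1 = 5 * (i + 1) := by omega
      simp only [Function.comp_apply, h2, dvd_mul_right, if_true]
    rw [h1]
    exact h
  · intro x hx
    rw [if_neg]
    rintro ⟨k, hk⟩
    apply hx
    refine ⟨k - 1, ?_⟩
    simp only
    omega

end FE

open scoped PowerSeries.WithPiTopology in
theorem prod_rescale (z : ℂ) (hz : IsPrimitiveRoot z 5) :
    (∏ k ∈ Finset.range 5, PowerSeries.rescale (z ^ k) phiC) * PowerSeries.expand 25 (by norm_num) phiC =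
      (PowerSeries.expand 5 (by norm_num) phiC) ^ 6 := by
  have hL1 : HasProd (fun n : ℕ => ∏ k ∈ Finset.range 5,
      (1 - PowerSeries.C ((z ^ k) ^ (n + 1)) * (X : ℂ⟦X⟧) ^ (n + 1)))
      (∏ k ∈ Finset.range 5, PowerSeries.rescale (z ^ k) phiC) :=
    hasProd_prod fun k _ => fe_rescale (z ^ k)
  have hL2 : HasProd (fun i : ℕ => if 5 ∣ i + 1 then (1 - (X : ℂ⟦X⟧) ^ (5 * (i + 1))) else 1)
      (PowerSeries.expand 25 (by norm_num) phiC) := by
    apply fe_reindex (fun j => 1 - (X : ℂ⟦X⟧) ^ (5 * j))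
    have := fe_expand 25 (by norm_num)
    convert this using 3
    ring_nf
  have hR1 : HasProd (fun i : ℕ => (1 - (X : ℂ⟦X⟧) ^ (5 * (i + 1))))
      (PowerSeries.expand 5 (by norm_num) phiC) := fe_expand 5 (by norm_num)
  have hR2 : HasProd (fun i : ℕ => if 5 ∣ i + 1 then (1 - (X : ℂ⟦X⟧) ^ (i + 1)) else 1)
      (PowerSeries.expand 5 (by norm_num) phiC) :=
    fe_reindex (fun j => 1 - (X : ℂ⟦X⟧) ^ j) _ hR1
  have hR3 : HasProd (fun i : ℕ => ∏ _k ∈ Finset.range 5,
      if 5 ∣ i + 1 then (1 - (X : ℂ⟦X⟧) ^ (i + 1)) else 1)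
      (∏ _k ∈ Finset.range 5, PowerSeries.expand 5 (by norm_num) phiC) :=
    hasProd_prod fun _ _ => hR2
  have hL := hL1.mul hL2
  have hR := hR1.mul hR3
  have he : (fun i : ℕ => (1 - (X : ℂ⟦X⟧) ^ (5 * (i + 1))) * ∏ _k ∈ Finset.range 5,
      if 5 ∣ i + 1 then (1 - (X : ℂ⟦X⟧) ^ (i + 1)) else 1) =
      fun n : ℕ => (∏ k ∈ Finset.range 5,
        (1 - PowerSeries.C ((z ^ k) ^ (n + 1)) * (X : ℂ⟦X⟧) ^ (n + 1))) *
        if 5 ∣ n + 1 then (1 - (X : ℂ⟦X⟧) ^ (5 * (n + 1))) else 1 := by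
    funext n
    by_cases h5 : 5 ∣ n + 1
    · simp only [h5, if_true]
      have h1 : ∀ k ∈ Finset.range 5, (1 - PowerSeries.C ((z ^ k) ^ (n + 1)) * (X : ℂ⟦X⟧) ^ (n + 1)) =
          1 - (X : ℂ⟦X⟧) ^ (n + 1) := by
        intro k _
        have : (z ^ k) ^ (n + 1) = 1 := by
          obtain ⟨j, hj⟩ := h5
          rw [hj, ← pow_mul, show k * (5 * j) = 5 * (k * j) by ring, pow_mul, hz.pow_eq_one, one_pow]
        rw [this, map_one, one_mul]
      rw [Finset.prod_congr rfl h1, mul_comm]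
    · simp only [h5, if_false]
      have hw : IsPrimitiveRoot (z ^ (n + 1)) 5 :=
        hz.pow_of_coprime _ ((Nat.Prime.coprime_iff_not_dvd (by norm_num)).2 h5).symm
      have h0 := hw.geom_sum_eq_zero (by norm_num)
      simp only [Finset.sum_range_succ, Finset.sum_range_zero] at h0
      have h0' : (1 : ℂ⟦X⟧) + PowerSeries.C (z ^ (n + 1)) + PowerSeries.C (z ^ (n + 1)) ^ 2 +
          PowerSeries.C (z ^ (n + 1)) ^ 3 + PowerSeries.C (z ^ (n + 1)) ^ 4 = 0 := by
        have := congrArg (PowerSeries.C (R := ℂ)) h0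
        simpa using this
      have h1 := fe_key (PowerSeries.C (z ^ (n + 1))) ((X : ℂ⟦X⟧) ^ (n + 1)) h0'
      have h2 : ∀ k ∈ Finset.range 5, (1 - PowerSeries.C ((z ^ k) ^ (n + 1)) * (X : ℂ⟦X⟧) ^ (n + 1)) =
          1 - PowerSeries.C (z ^ (n + 1)) ^ k * (X : ℂ⟦X⟧) ^ (n + 1) := by
        intro k _
        rw [← map_pow, ← pow_mul, ← pow_mul, mul_comm k]
      rw [Finset.prod_congr rfl h2, h1, ← pow_mul, mul_comm (n + 1) 5]
      simp
  rw [he] at hR
  have := hL.unique hR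
  rw [this, Finset.prod_const, Finset.card_range]
  ring

end Pool.Agent.B5F
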