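import Pool.Agent.B5F.FD
import Pool.Agent.B5F.FE

/-!
B5F / FF: with `phi_split` over the complex numbers, rescale (z^k) phi = A - z^k X B - z^(2k) X^2 C (A, B, C are series in X^5), and for AC = B^2 the product over k < 5 of (A - z^k y B - z^(2k) y^2 C) is
A^5 - 11 y^5 B^5 - y^10 C^5 (polynomial identity: the product is A^5 - y^5 B^5 - y^10 C^5 - 5 y^5 A B^3 C - 5 y^5 A^2 B C^2, using z^5 = 1 and 1 + z + z^2 + z^3 + z^4 = 0). With FE:
(A^5 - 11 X^5 B^5 - X^10 C^5) * e25 phi = (ex5 phi)^6; everything is ex5 of the statement, ex5 is injective (first for series with complex coefficients, then map (Int.castRingHom) is injective).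
`modular`: by `linear_combination` from phi_split, norm_phi, pA_mul_pC: with F = A - XB - X^2 C, the difference (A^5 - 11X^5B^5 - X^10C^5) - (F^5 + 5XBF^4 + 15X^2B^2F^3 + 25X^3B^3F^2 + 25X^4B^4F) equals
(AC - B^2)(5A^3X^2 - 10A^2CX^4 + 5AB^2X^4 + 10AC^2X^6 - 5B^2CX^6 - 5C^3X^8).
`modular_x`: xx * phi = X * e25 phi, tt * phi^6 = X * (ex5 phi)^6, ex5 tt * (ex5 phi)^6 = X^5 (e25 phi)^6; multiply `modular` by X^5 (e25 phi)^5 and divide by phi^5 (ex5 phi)^6.
-/

set_option autoImplicit false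

namespace Pool.Agent.B5F

open PowerSeries Pool.Agent.B5

private theorem ff_ring {R : Type*} [CommRing R] (Z A b c : R) (hZ : Z ^ 4 + Z ^ 3 + Z ^ 2 + Z + 1 = 0)
    (hAc : A * c = b ^ 2) :
    (A - b - c) * (A - Z * b - Z ^ 2 * c) * (A - Z ^ 2 * b - Z ^ 4 * c) * (A - Z ^ 3 * b - Z ^ 6 * c) *
      (A - Z ^ 4 * b - Z ^ 8 * c) = A ^ 5 - 11 * b ^ 5 - c ^ 5 := by
  have h5 : Z ^ 5 = 1 := by linear_combination (Z - 1) * hZ
  have h14 : (A - Z * b - Z ^ 2 * c) * (A - Z ^ 4 * b - Z ^ 8 * c) =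
      A ^ 2 - (Z + Z ^ 4) * A * b - (Z ^ 2 + Z ^ 3) * A * c + b ^ 2 + (Z + Z ^ 4) * b * c + c ^ 2 := by
    linear_combination (b ^ 2 + Z ^ 4 * b * c + Z * b * c + c ^ 2 * (Z ^ 5 + 1) - A * c * Z ^ 3) * h5
  have h23 : (A - Z ^ 2 * b - Z ^ 4 * c) * (A - Z ^ 3 * b - Z ^ 6 * c) =
      A ^ 2 - (Z ^ 2 + Z ^ 3) * A * b - (Z + Z ^ 4) * A * c + b ^ 2 + (Z ^ 2 + Z ^ 3) * b * c + c ^ 2 := by
    linear_combination (b ^ 2 + Z ^ 3 * b * c + Z ^ 2 * b * c + c ^ 2 * (Z ^ 5 + 1) - A * c * Z) * h5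
  have huv : (Z + Z ^ 4) * (Z ^ 2 + Z ^ 3) = -1 := by linear_combination (Z ^ 3 - Z + 1) * hZ
  have huv' : (Z ^ 2 + Z ^ 3) = -1 - (Z + Z ^ 4) := by linear_combination hZ
  have e : (A - b - c) * (A - Z * b - Z ^ 2 * c) * (A - Z ^ 2 * b - Z ^ 4 * c) * (A - Z ^ 3 * b - Z ^ 6 * c) *
      (A - Z ^ 4 * b - Z ^ 8 * c) = (A - b - c) * ((A - Z * b - Z ^ 2 * c) * (A - Z ^ 4 * b - Z ^ 8 * c)) *
      ((A - Z ^ 2 * b - Z ^ 4 * c) * (A - Z ^ 3 * b - Z ^ 6 * c)) := by ring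
  rw [e, h14, h23]
  rw [huv'] at huv ⊢
  generalize Z + Z ^ 4 = u at huv
  have hA : A ^ 2 * b * c ^ 2 = b ^ 5 := by linear_combination (A * c * b + b ^ 3) * hAc
  have hA' : A * b ^ 3 * c = b ^ 5 := by linear_combination b ^ 3 * hAc
  linear_combination (-(-(A ^ 3 * c ^ 2) + A ^ 2 * c ^ 3 + 2 * A ^ 3 * c * b - 3 * A ^ 2 * c ^ 2 * b + 2 * A * c ^ 3 * b
    - A ^ 3 * b ^ 2 + A ^ 2 * c * b ^ 2 - A * c ^ 2 * b ^ 2 + c ^ 3 * b ^ 2 + A ^ 2 * b ^ 3 - 2 * A * c * b ^ 3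
    + c ^ 2 * b ^ 3)) * huv - 5 * hA - 5 * hA'

private theorem ff_resc (z : ℂ) (hz : z ^ 5 = 1) (k : ℕ) (f : ℂ⟦X⟧) :
    PowerSeries.rescale (z ^ k) (PowerSeries.expand 5 (by norm_num) f) = PowerSeries.expand 5 (by norm_num) f := by
  ext n
  rw [PowerSeries.coeff_rescale, PowerSeries.coeff_expand]
  split_ifs with h
  · obtain ⟨m, rfl⟩ := h
    have : (z ^ k) ^ (5 * m) = 1 := by
      rw [← pow_mul, show k * (5 * m) = 5 * (k * m) by ring, pow_mul, hz, one_pow]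
    rw [this, one_mul]
  · rw [mul_zero]

private theorem ff_ex5_inj {R : Type*} [CommRing R] {a b : R⟦X⟧}
    (h : PowerSeries.expand 5 (by norm_num) a = PowerSeries.expand 5 (by norm_num) b) : a = b := by
  ext n
  have h1 := congrArg (PowerSeries.coeff (5 * n)) h
  rwa [PowerSeries.coeff_expand_mul, PowerSeries.coeff_expand_mul] at h1

private theorem ff_e25 (f : ℤ⟦X⟧) : e25 f = ex5 (ex5 f) := by
  have h := PowerSeries.expand_mul (R := ℤ) 5 (by norm_num) 5 (by norm_num) f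
  exact h

private theorem ff_e25C (f : ℂ⟦X⟧) : PowerSeries.expand 25 (by norm_num) f =
    PowerSeries.expand 5 (by norm_num) (PowerSeries.expand 5 (by norm_num) f) := by
  have h := PowerSeries.expand_mul (R := ℂ) 5 (by norm_num) 5 (by norm_num) f
  exact h

private theorem ff_map_ex5 (f : ℤ⟦X⟧) : PowerSeries.map (Int.castRingHom ℂ) (ex5 f) =
    PowerSeries.expand 5 (by norm_num) (PowerSeries.map (Int.castRingHom ℂ) f) :=
  PowerSeries.map_expand _ _ _ _

private theorem ff_splitC : phiC = PowerSeries.expand 5 (by norm_num) (PowerSeries.map (Int.castRingHom ℂ) pA) -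
    PowerSeries.X * PowerSeries.expand 5 (by norm_num) (PowerSeries.expand 5 (by norm_num) phiC) -
    PowerSeries.X ^ 2 * PowerSeries.expand 5 (by norm_num) (PowerSeries.map (Int.castRingHom ℂ) pC) := by
  have h := congrArg (PowerSeries.map (Int.castRingHom ℂ)) phi_split
  rw [ff_e25] at h
  simp only [map_sub, map_mul, map_pow, PowerSeries.map_X, ff_map_ex5] at h
  exact h

private theorem ff_acC : PowerSeries.map (Int.castRingHom ℂ) pA * PowerSeries.map (Int.castRingHom ℂ) pC =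
    (PowerSeries.expand 5 (by norm_num) phiC) ^ 2 := by
  have h := congrArg (PowerSeries.map (Int.castRingHom ℂ)) pA_mul_pC
  simp only [map_mul, map_pow, ff_map_ex5] at h
  exact h

private theorem ff_main : PowerSeries.expand 5 (by norm_num) (phiC ^ 6) = PowerSeries.expand 5 (by norm_num)
    (PowerSeries.expand 5 (by norm_num) phiC * ((PowerSeries.map (Int.castRingHom ℂ) pA) ^ 5 -
      11 * PowerSeries.X * (PowerSeries.expand 5 (by norm_num) phiC) ^ 5 -
      PowerSeries.X ^ 2 * (PowerSeries.map (Int.castRingHom ℂ) pC) ^ 5)) := by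
  have hz : IsPrimitiveRoot (Complex.exp (2 * Real.pi * Complex.I / 5)) 5 := by
    have := Complex.isPrimitiveRoot_exp 5 (by norm_num)
    exact_mod_cast this
  generalize Complex.exp (2 * Real.pi * Complex.I / 5) = z at hz
  have hz5 : z ^ 5 = 1 := hz.pow_eq_one
  have hzs : z ^ 4 + z ^ 3 + z ^ 2 + z + 1 = 0 := by
    have h := hz.geom_sum_eq_zero (by norm_num)
    simp only [Finset.sum_range_succ, Finset.sum_range_zero] at h
    linear_combination h
  have h := prod_rescale z hz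
  have hk : ∀ k : ℕ, PowerSeries.rescale (z ^ k) phiC =
      PowerSeries.expand 5 (by norm_num) (PowerSeries.map (Int.castRingHom ℂ) pA) -
      (PowerSeries.C z) ^ k * (PowerSeries.X * PowerSeries.expand 5 (by norm_num)
        (PowerSeries.expand 5 (by norm_num) phiC)) -
      (PowerSeries.C z) ^ (2 * k) * (PowerSeries.X ^ 2 *
        PowerSeries.expand 5 (by norm_num) (PowerSeries.map (Int.castRingHom ℂ) pC)) := by
    intro k
    conv_lhs => rw [ff_splitC]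
    simp only [map_sub, map_mul, map_pow, PowerSeries.rescale_X, ff_resc z hz5]
    ring
  have hZ : (PowerSeries.C z : ℂ⟦X⟧) ^ 4 + (PowerSeries.C z) ^ 3 + (PowerSeries.C z) ^ 2 + PowerSeries.C z + 1 = 0 := by
    rw [← map_pow, ← map_pow, ← map_pow, ← map_add, ← map_add, ← map_add, ← map_one PowerSeries.C, ← map_add, hzs,
      map_zero]
  have hac := congrArg (PowerSeries.expand 5 (by norm_num) : ℂ⟦X⟧ →ₐ[ℂ] ℂ⟦X⟧) ff_acC
  rw [map_mul, map_pow] at hac
  simp only [Finset.prod_range_succ, Finset.prod_range_zero, hk, one_mul] at h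
  have key := ff_ring (PowerSeries.C z : ℂ⟦X⟧)
    (PowerSeries.expand 5 (by norm_num) (PowerSeries.map (Int.castRingHom ℂ) pA))
    (PowerSeries.X * PowerSeries.expand 5 (by norm_num) (PowerSeries.expand 5 (by norm_num) phiC))
    (PowerSeries.X ^ 2 * PowerSeries.expand 5 (by norm_num) (PowerSeries.map (Int.castRingHom ℂ) pC)) hZ
    (by linear_combination PowerSeries.X ^ 2 * hac)
  rw [ff_e25C] at h
  simp only [map_mul, map_sub, map_pow, PowerSeries.expand_X, map_ofNat]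
  rw [← h]
  simp only [pow_zero, mul_zero, one_mul, pow_one, mul_one] at key ⊢
  norm_num only at key ⊢
  rw [key]
  ring

private theorem ff_map_inj {a b : ℤ⟦X⟧}
    (h : PowerSeries.map (Int.castRingHom ℂ) a = PowerSeries.map (Int.castRingHom ℂ) b) : a = b := by
  ext n
  have h1 := congrArg (PowerSeries.coeff n) h
  rw [PowerSeries.coeff_map, PowerSeries.coeff_map] at h1
  exact Int.cast_injective (α := ℂ) (by simpa using h1)

theorem norm_phi : phi ^ 6 = ex5 phi * (pA ^ 5 - 11 * PowerSeries.X * (ex5 phi) ^ 5 - PowerSeries.X ^ 2 * pC ^ 5) := by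
  have h := ff_ex5_inj ff_main
  apply ff_map_inj
  simp only [map_mul, map_sub, map_pow, ff_map_ex5, PowerSeries.map_X, map_ofNat]
  exact h

private theorem ff_ex5_mul (a b : ℤ⟦X⟧) : ex5 (a * b) = ex5 a * ex5 b := by
  simp only [ex5, map_mul]

private theorem ff_ex5_pow (a : ℤ⟦X⟧) (n : ℕ) : ex5 (a ^ n) = ex5 a ^ n := by
  simp only [ex5, map_pow]

theorem modular : (ex5 phi) ^ 6 = e25 phi * (phi ^ 5 + 5 * PowerSeries.X * e25 phi * phi ^ 4 +
    15 * PowerSeries.X ^ 2 * (e25 phi) ^ 2 * phi ^ 3 + 25 * PowerSeries.X ^ 3 * (e25 phi) ^ 3 * phi ^ 2 +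
    25 * PowerSeries.X ^ 4 * (e25 phi) ^ 4 * phi) := by
  have h1 : (ex5 phi) ^ 6 = e25 phi * ((ex5 pA) ^ 5 - 11 * PowerSeries.X ^ 5 * (e25 phi) ^ 5 -
      PowerSeries.X ^ 10 * (ex5 pC) ^ 5) := by
    have h := congrArg ex5 norm_phi
    rw [ff_e25]
    simp only [ex5, map_mul, map_sub, map_pow, PowerSeries.expand_X, map_ofNat] at h ⊢
    rw [h]
    ring
  have h2 : ex5 pA * ex5 pC = (e25 phi) ^ 2 := by
    have h := congrArg ex5 pA_mul_pC
    rwa [ff_ex5_mul, ff_ex5_pow, ← ff_e25] at h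
  have h3 := phi_split
  rw [h1]
  generalize ex5 pA = A at *
  generalize e25 phi = B at *
  generalize ex5 pC = C at *
  generalize phi = F at *
  subst h3
  linear_combination (B * (5 * A ^ 3 * PowerSeries.X ^ 2 - 10 * A ^ 2 * C * PowerSeries.X ^ 4 +
    5 * A * B ^ 2 * PowerSeries.X ^ 4 + 10 * A * C ^ 2 * PowerSeries.X ^ 6 - 5 * B ^ 2 * C * PowerSeries.X ^ 6 -
    5 * C ^ 3 * PowerSeries.X ^ 8)) * h2

private theorem ff_phi_const : PowerSeries.coeff 0 phi = 1 := by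
  unfold phi
  have h0 : pentagonal 0 = 0 := by simp [pentagonal_def]
  have h1 := PowerSeries.coeff_pentagonalSeries_pentagonal ℤ 0
  rw [h0] at h1
  simpa using h1

theorem modular_x : xx ^ 5 = ex5 tt * (1 + 5 * xx + 15 * xx ^ 2 + 25 * xx ^ 3 + 25 * xx ^ 4) := by
  have hphi : phi ≠ 0 := by
    intro h
    have := ff_phi_const
    rw [h] at this
    simp at this
  have hphi5 : ex5 phi ≠ 0 := by
    intro h
    have h1 := congrArg (PowerSeries.coeff 0) h
    rw [ex5, PowerSeries.coeff_zero_eq_constantCoeff, PowerSeries.constantCoeff_expand,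
      ← PowerSeries.coeff_zero_eq_constantCoeff_apply, ff_phi_const] at h1
    simp at h1
  have h1 : xx * phi = PowerSeries.X * e25 phi := by
    have h := id_B1
    have h' := congrArg ex5 h
    rw [ff_ex5_mul, ← ff_e25] at h'
    rw [xx]
    linear_combination (PowerSeries.X * ex5 sB) * h + PowerSeries.X * h'
  have h2 : ex5 tt * (ex5 phi) ^ 6 = PowerSeries.X ^ 5 * (e25 phi) ^ 6 := by
    have h' := congrArg ex5 id_B1
    rw [ff_ex5_mul, ← ff_e25] at h'
    have e : ex5 tt = PowerSeries.X ^ 5 * (ex5 sB) ^ 6 := by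
      rw [tt, ff_ex5_mul, ff_ex5_pow, ex5, PowerSeries.expand_X]
    rw [e, ← h']
    ring
  have h3 := modular
  have hc : phi ^ 5 * (ex5 phi) ^ 6 ≠ 0 := mul_ne_zero (pow_ne_zero _ hphi) (pow_ne_zero _ hphi5)
  apply mul_right_cancel₀ hc
  have e1 : xx ^ 5 * (phi ^ 5 * (ex5 phi) ^ 6) = PowerSeries.X ^ 5 * (e25 phi) ^ 5 * (ex5 phi) ^ 6 := by
    rw [← mul_assoc, ← mul_pow, h1, mul_pow]
  have e2 : (ex5 tt * (1 + 5 * xx + 15 * xx ^ 2 + 25 * xx ^ 3 + 25 * xx ^ 4)) * (phi ^ 5 * (ex5 phi) ^ 6) =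
      (ex5 tt * (ex5 phi) ^ 6) * (phi ^ 5 + 5 * (xx * phi) * phi ^ 4 + 15 * (xx * phi) ^ 2 * phi ^ 3 +
      25 * (xx * phi) ^ 3 * phi ^ 2 + 25 * (xx * phi) ^ 4 * phi) := by ring
  rw [e1, e2, h1, h2]
  linear_combination (PowerSeries.X ^ 5 * (e25 phi) ^ 5) * h3

end Pool.Agent.B5F
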