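import Pool.Agent.B5F.FF

/-!
B5F / FG: V5 0 (ex5 c * g) = c * V5 0 g. For i >= 5, multiply modular_x by xx^(i-5): recurrence of `w`. For i = 1..4: put Y_j = X^(5-j) (e25 phi)^(6-j) phi^j times the inverse of (ex5 phi)^6, j <= 4; Y_0 = ex5 tt,
Y_j * xx = Y_(j-1), so (cancel xx^(5-i)) xx^i = Y_(5-i) * (1 + 5 xx + 15 xx^2 + 25 xx^3 + 25 xx^4), e.g. xx^4 = Y_1 + 5 Y_0 + 15 Y_0 xx + 25 Y_0 xx^2 + 25 Y_0 xx^3.
V5 0 (Y_j) = tt * v_j with v_0 = 1, v_1 = -1, v_2 = -1, v_3 = 5, v_4 = -5, because V5 j (phi^j) = v_j (ex5 phi)^j for j = 1..4 (expand (A - XB - X^2C)^j, AC = B^2: the component at exponents j mod 5 is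
-XB, X^2(B^2 - 2AC), X^3(-B^3 + 6ABC), X^4(B^4 - 12AB^2C + 6A^2C^2)) and V5 0 (X^(5-j) g) = X * V5 j g. So u_1 = tt(-5 + 5*5 - 15 - 25 + 25) = 5 tt, u_2 = tt(5 - 5 - 15 + 25 + 25 u_1),
u_3 = tt(-1 - 5 + 15 + 25 u_1 + 25 u_2), u_4 = tt(-1 + 5 + 15 u_1 + 25 u_2 + 25 u_3), as in `w`.
-/

set_option autoImplicit false

namespace Pool.Agent.B5F

open PowerSeries Pool.Agent.B5

private theorem FG_e25 (c : ℤ⟦X⟧) : e25 c = ex5 (ex5 c) := by
  ext n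
  unfold e25 ex5
  rw [PowerSeries.coeff_expand, PowerSeries.coeff_expand]
  by_cases h : 25 ∣ n
  · have h5 : 5 ∣ n := (by norm_num : 5 ∣ 25).trans h
    obtain ⟨m, rfl⟩ := h
    have e1 : 25 * m / 5 = 5 * m := by omega
    have e2 : 25 * m / 25 = m := by omega
    have e3 : 5 * m / 5 = m := by omega
    rw [if_pos (Dvd.intro _ rfl), if_pos h5, PowerSeries.coeff_expand, e1, e2,
      if_pos (Dvd.intro _ rfl), e3]
  · rw [if_neg h]
    by_cases h5 : 5 ∣ n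
    · obtain ⟨m, rfl⟩ := h5
      have e1 : 5 * m / 5 = m := by omega
      rw [if_pos (Dvd.intro _ rfl), PowerSeries.coeff_expand, e1, if_neg]
      rintro ⟨k, rfl⟩
      exact h ⟨k, by ring⟩
    · rw [if_neg h5]

private theorem FG_mul (a b : ℤ⟦X⟧) : ex5 (a * b) = ex5 a * ex5 b := by
  unfold ex5
  exact map_mul _ _ _

private theorem FG_pow (a : ℤ⟦X⟧) (n : ℕ) : ex5 (a ^ n) = ex5 a ^ n := by
  unfold ex5
  exact map_pow _ _ _

private theorem FG_X : ex5 (PowerSeries.X : ℤ⟦X⟧) = PowerSeries.X ^ 5 := by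
  unfold ex5
  exact PowerSeries.expand_X _ _

private theorem FG_mono (r s n : ℕ) (hr : r < 5) (hs : s < 5) (c : ℤ⟦X⟧) :
    PowerSeries.coeff (5 * n + r) (PowerSeries.X ^ s * ex5 c) =
      if r = s then PowerSeries.coeff n c else 0 := by
  rw [PowerSeries.coeff_X_pow_mul']
  unfold ex5
  by_cases h : s ≤ 5 * n + r
  · rw [if_pos h, PowerSeries.coeff_expand]
    by_cases hrs : r = s
    · subst hrs
      have e1 : 5 * n + r - r = 5 * n := by omega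
      have e2 : 5 * n / 5 = n := by omega
      rw [e1, if_pos (Dvd.intro _ rfl), if_pos rfl, e2]
    · rw [if_neg hrs, if_neg]
      omega
  · rw [if_neg h, if_neg]
    omega

private theorem FG_V5 (r : ℕ) (hr : r < 5) (f : ℕ → ℤ⟦X⟧) :
    V5 r (∑ s ∈ Finset.range 5, PowerSeries.X ^ s * ex5 (f s)) = f r := by
  ext n
  unfold V5
  rw [PowerSeries.coeff_mk, map_sum, Finset.sum_eq_single r]
  · rw [FG_mono r r n hr hr, if_pos rfl]
  · intro s hs hne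
    rw [FG_mono r s n hr (Finset.mem_range.1 hs), if_neg (Ne.symm hne)]
  · intro h
    exact absurd (Finset.mem_range.2 hr) h

private theorem FG_dec (g : ℤ⟦X⟧) :
    g = ∑ s ∈ Finset.range 5, PowerSeries.X ^ s * ex5 (V5 s g) := by
  ext m
  obtain ⟨n, r, hr, rfl⟩ : ∃ n r, r < 5 ∧ m = 5 * n + r := ⟨m / 5, m % 5, by omega, by omega⟩
  rw [map_sum, Finset.sum_eq_single r]
  · rw [FG_mono r r n hr hr, if_pos rfl]
    unfold V5
    rw [PowerSeries.coeff_mk]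
  · intro s hs hne
    rw [FG_mono r s n hr (Finset.mem_range.1 hs), if_neg (Ne.symm hne)]
  · intro h
    exact absurd (Finset.mem_range.2 hr) h

private theorem FG_add (r : ℕ) (a b : ℤ⟦X⟧) : V5 r (a + b) = V5 r a + V5 r b := by
  ext n
  unfold V5
  simp

private theorem FG_num (r : ℕ) (z : ℤ) (a : ℤ⟦X⟧) :
    V5 r ((z : ℤ⟦X⟧) * a) = (z : ℤ⟦X⟧) * V5 r a := by
  have hz : (z : ℤ⟦X⟧) = PowerSeries.C z := by
    rw [← eq_intCast (PowerSeries.C : ℤ →+* ℤ⟦X⟧) z]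
  ext n
  rw [hz]
  unfold V5
  rw [PowerSeries.coeff_mk, PowerSeries.coeff_C_mul, PowerSeries.coeff_C_mul,
    PowerSeries.coeff_mk]

private theorem FG_shift (j : ℕ) (h1 : 1 ≤ j) (h4 : j ≤ 4) (g : ℤ⟦X⟧) :
    V5 0 (PowerSeries.X ^ (5 - j) * g) = PowerSeries.X * V5 j g := by
  ext n
  unfold V5
  rw [PowerSeries.coeff_mk, PowerSeries.coeff_X_pow_mul']
  cases n with
  | zero =>
    rw [if_neg (by omega)]
    simp
  | succ n =>
    rw [if_pos (by omega), PowerSeries.coeff_succ_X_mul, PowerSeries.coeff_mk]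
    congr 1
    congr 1
    omega

theorem V5_ex5_mul (c g : ℤ⟦X⟧) : V5 0 (ex5 c * g) = c * V5 0 g := by
  have h : ex5 c * g = ∑ s ∈ Finset.range 5, PowerSeries.X ^ s * ex5 (c * V5 s g) := by
    conv_lhs => rw [FG_dec g, Finset.mul_sum]
    refine Finset.sum_congr rfl fun s _ => ?_
    rw [FG_mul]
    ring
  rw [h, FG_V5 0 (by omega)]

/-- the components of the powers of phi -/
private theorem FG_phi1 : V5 1 phi = - ex5 phi := phi_c1

private theorem FG_split : phi = ex5 pA - PowerSeries.X * ex5 (ex5 phi) -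
    PowerSeries.X ^ 2 * ex5 pC := by
  have e := phi_split
  rwa [FG_e25] at e

private theorem FG_phi2' : phi ^ 2 = ∑ s ∈ Finset.range 5, PowerSeries.X ^ s *
    ex5 (match s with
      | 0 => pA ^ 2
      | 1 => -2 * pA * ex5 phi
      | 2 => (ex5 phi) ^ 2 - 2 * pA * pC
      | 3 => 2 * ex5 phi * pC
      | _ => pC ^ 2) := by
  have e := FG_split
  simp only [Finset.sum_range_succ, Finset.sum_range_zero]
  unfold ex5
  simp only [map_mul, map_sub, map_neg, map_pow, map_ofNat]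
  change phi ^ 2 = 0 + PowerSeries.X ^ 0 * (ex5 pA) ^ 2 +
    PowerSeries.X ^ 1 * (-2 * ex5 pA * ex5 (ex5 phi)) +
    PowerSeries.X ^ 2 * (ex5 (ex5 phi) ^ 2 - 2 * ex5 pA * ex5 pC) +
    PowerSeries.X ^ 3 * (2 * ex5 (ex5 phi) * ex5 pC) + PowerSeries.X ^ 4 * (ex5 pC) ^ 2
  generalize ex5 pA = A at e ⊢
  generalize ex5 (ex5 phi) = B at e ⊢
  generalize ex5 pC = C at e ⊢
  rw [e]
  ring

private theorem FG_phi2 : V5 2 (phi ^ 2) = - (ex5 phi) ^ 2 := by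
  rw [FG_phi2', FG_V5 2 (by omega)]
  have := pA_mul_pC
  change (ex5 phi) ^ 2 - 2 * pA * pC = - (ex5 phi) ^ 2
  linear_combination (-2) * this

private theorem FG_phi3 : V5 3 (phi ^ 3) = 5 * (ex5 phi) ^ 3 := by
  have h : phi ^ 3 = ∑ s ∈ Finset.range 5, PowerSeries.X ^ s *
    ex5 (match s with
      | 0 => pA ^ 3 - 3 * ex5 phi * pC ^ 2 * PowerSeries.X
      | 1 => -3 * pA ^ 2 * ex5 phi - pC ^ 3 * PowerSeries.X
      | 2 => 3 * pA * (ex5 phi) ^ 2 - 3 * pA ^ 2 * pC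
      | 3 => 6 * pA * ex5 phi * pC - (ex5 phi) ^ 3
      | _ => 3 * pA * pC ^ 2 - 3 * (ex5 phi) ^ 2 * pC) := by
    have e := FG_split
    simp only [Finset.sum_range_succ, Finset.sum_range_zero]
    unfold ex5
    simp only [map_mul, map_sub, map_neg, map_pow, map_ofNat, PowerSeries.expand_X]
    change phi ^ 3 = 0 + PowerSeries.X ^ 0 *
        ((ex5 pA) ^ 3 - 3 * ex5 (ex5 phi) * (ex5 pC) ^ 2 * PowerSeries.X ^ 5) +
      PowerSeries.X ^ 1 * (-3 * ex5 pA ^ 2 * ex5 (ex5 phi) - ex5 pC ^ 3 * PowerSeries.X ^ 5) +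
      PowerSeries.X ^ 2 * (3 * ex5 pA * ex5 (ex5 phi) ^ 2 - 3 * ex5 pA ^ 2 * ex5 pC) +
      PowerSeries.X ^ 3 * (6 * ex5 pA * ex5 (ex5 phi) * ex5 pC - ex5 (ex5 phi) ^ 3) +
      PowerSeries.X ^ 4 * (3 * ex5 pA * (ex5 pC) ^ 2 - 3 * ex5 (ex5 phi) ^ 2 * ex5 pC)
    generalize ex5 pA = A at e ⊢
    generalize ex5 (ex5 phi) = B at e ⊢
    generalize ex5 pC = C at e ⊢
    rw [e]
    ring
  rw [h, FG_V5 3 (by omega)]
  have := pA_mul_pC
  change 6 * pA * ex5 phi * pC - (ex5 phi) ^ 3 = 5 * (ex5 phi) ^ 3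
  linear_combination (6 * ex5 phi) * this

private theorem FG_phi4 : V5 4 (phi ^ 4) = -5 * (ex5 phi) ^ 4 := by
  have h : phi ^ 4 = ∑ s ∈ Finset.range 5, PowerSeries.X ^ s *
    ex5 (match s with
      | 0 => pA ^ 4 + PowerSeries.X * (2 * (-2 * pA * ex5 phi) * pC ^ 2 +
          2 * ((ex5 phi) ^ 2 - 2 * pA * pC) * (2 * ex5 phi * pC))
      | 1 => 2 * pA ^ 2 * (-2 * pA * ex5 phi) + PowerSeries.X *
          (2 * ((ex5 phi) ^ 2 - 2 * pA * pC) * pC ^ 2 + (2 * ex5 phi * pC) ^ 2)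
      | 2 => 2 * pA ^ 2 * ((ex5 phi) ^ 2 - 2 * pA * pC) + (-2 * pA * ex5 phi) ^ 2 +
          PowerSeries.X * (2 * (2 * ex5 phi * pC) * pC ^ 2)
      | 3 => 2 * pA ^ 2 * (2 * ex5 phi * pC) +
          2 * (-2 * pA * ex5 phi) * ((ex5 phi) ^ 2 - 2 * pA * pC) + PowerSeries.X * pC ^ 4
      | _ => 2 * pA ^ 2 * pC ^ 2 + 2 * (-2 * pA * ex5 phi) * (2 * ex5 phi * pC) +
          ((ex5 phi) ^ 2 - 2 * pA * pC) ^ 2) := by
    have e := FG_split
    simp only [Finset.sum_range_succ, Finset.sum_range_zero]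
    unfold ex5
    simp only [map_mul, map_sub, map_add, map_neg, map_pow, map_ofNat, PowerSeries.expand_X]
    change phi ^ 4 = 0 + PowerSeries.X ^ 0 *
        (ex5 pA ^ 4 + PowerSeries.X ^ 5 * (2 * (-2 * ex5 pA * ex5 (ex5 phi)) * ex5 pC ^ 2 +
          2 * ((ex5 (ex5 phi)) ^ 2 - 2 * ex5 pA * ex5 pC) * (2 * ex5 (ex5 phi) * ex5 pC))) +
      PowerSeries.X ^ 1 * (2 * ex5 pA ^ 2 * (-2 * ex5 pA * ex5 (ex5 phi)) + PowerSeries.X ^ 5 *
          (2 * ((ex5 (ex5 phi)) ^ 2 - 2 * ex5 pA * ex5 pC) * ex5 pC ^ 2 +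
            (2 * ex5 (ex5 phi) * ex5 pC) ^ 2)) +
      PowerSeries.X ^ 2 * (2 * ex5 pA ^ 2 * ((ex5 (ex5 phi)) ^ 2 - 2 * ex5 pA * ex5 pC) +
          (-2 * ex5 pA * ex5 (ex5 phi)) ^ 2 +
          PowerSeries.X ^ 5 * (2 * (2 * ex5 (ex5 phi) * ex5 pC) * ex5 pC ^ 2)) +
      PowerSeries.X ^ 3 * (2 * ex5 pA ^ 2 * (2 * ex5 (ex5 phi) * ex5 pC) +
          2 * (-2 * ex5 pA * ex5 (ex5 phi)) * ((ex5 (ex5 phi)) ^ 2 - 2 * ex5 pA * ex5 pC) +
          PowerSeries.X ^ 5 * ex5 pC ^ 4) +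
      PowerSeries.X ^ 4 * (2 * ex5 pA ^ 2 * ex5 pC ^ 2 +
          2 * (-2 * ex5 pA * ex5 (ex5 phi)) * (2 * ex5 (ex5 phi) * ex5 pC) +
          ((ex5 (ex5 phi)) ^ 2 - 2 * ex5 pA * ex5 pC) ^ 2)
    generalize ex5 pA = A at e ⊢
    generalize ex5 (ex5 phi) = B at e ⊢
    generalize ex5 pC = C at e ⊢
    rw [e]
    ring
  rw [h, FG_V5 4 (by omega)]
  have := pA_mul_pC
  change 2 * pA ^ 2 * pC ^ 2 + 2 * (-2 * pA * ex5 phi) * (2 * ex5 phi * pC) +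
          ((ex5 phi) ^ 2 - 2 * pA * pC) ^ 2 = -5 * (ex5 phi) ^ 4
  linear_combination (6 * pA * pC - 6 * (ex5 phi) ^ 2) * this

/-! the series Y -/

private noncomputable def FG_I : ℤ⟦X⟧ := PowerSeries.invOfUnit phi 1

private theorem FG_I_mul : phi * FG_I = 1 := by
  unfold FG_I
  exact PowerSeries.mul_invOfUnit _ _ (by rw [phi_coeff_zero]; rfl)

private noncomputable def FG_Y (j : ℕ) : ℤ⟦X⟧ :=
  PowerSeries.X ^ (5 - j) * phi ^ j * ex5 ((ex5 phi) ^ (6 - j) * FG_I ^ 6)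

private theorem FG_sB : ex5 phi * FG_I = sB := by
  rw [← id_B1, mul_assoc, FG_I_mul, mul_one]

private theorem FG_xphi : xx * phi = PowerSeries.X * ex5 (ex5 phi) := by
  unfold xx
  have h1 := id_B1
  have h2 : ex5 sB * ex5 phi = ex5 (ex5 phi) := by
    rw [← FG_mul, id_B1]
  rw [← h2]
  linear_combination (PowerSeries.X * ex5 sB) * h1

private theorem FG_Y0 : FG_Y 0 = ex5 tt := by
  unfold FG_Y tt
  have e : (ex5 phi) ^ (6 - 0) * FG_I ^ 6 = sB ^ 6 := by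
    rw [← FG_sB, mul_pow]
  rw [e, FG_mul, FG_X]
  ring

private theorem FG_Ystep (j : ℕ) (hj : j + 1 ≤ 4) : FG_Y (j + 1) * xx = FG_Y j := by
  unfold FG_Y
  have e1 : 5 - j = (5 - (j + 1)) + 1 := by omega
  have e2 : 6 - j = (6 - (j + 1)) + 1 := by omega
  rw [e1, e2]
  have e3 : (ex5 phi) ^ (6 - (j + 1) + 1) * FG_I ^ 6 =
      ex5 phi * ((ex5 phi) ^ (6 - (j + 1)) * FG_I ^ 6) := by ring
  rw [e3, FG_mul (ex5 phi)]
  have := FG_xphi
  linear_combination (PowerSeries.X ^ (5 - (j + 1)) * phi ^ j *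
    ex5 ((ex5 phi) ^ (6 - (j + 1)) * FG_I ^ 6)) * this

private theorem FG_VY (j : ℕ) (h1 : 1 ≤ j) (h4 : j ≤ 4) (z : ℤ)
    (h : V5 j (phi ^ j) = (z : ℤ⟦X⟧) * (ex5 phi) ^ j) : V5 0 (FG_Y j) = (z : ℤ⟦X⟧) * tt := by
  unfold FG_Y tt
  rw [mul_comm (PowerSeries.X ^ (5 - j) * phi ^ j), V5_ex5_mul, FG_shift j h1 h4, h]
  have e : (ex5 phi) ^ (6 - j) * (ex5 phi) ^ j = (ex5 phi) ^ 6 := by
    rw [← pow_add]
    congr 1
    omega
  rw [← FG_sB, mul_pow]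
  linear_combination (FG_I ^ 6 * PowerSeries.X * (z : ℤ⟦X⟧)) * e

private theorem FG_ne : xx ≠ 0 := by
  intro h
  have h1 := FG_xphi
  rw [h, zero_mul] at h1
  have h2 := congrArg (PowerSeries.coeff 1) h1
  rw [map_zero, show (1 : ℕ) = 0 + 1 from rfl, PowerSeries.coeff_succ_X_mul] at h2
  unfold ex5 at h2
  rw [PowerSeries.coeff_expand, if_pos (dvd_zero 5), Nat.zero_div, PowerSeries.coeff_expand,
    if_pos (dvd_zero 5), Nat.zero_div, PowerSeries.coeff_zero_eq_constantCoeff_apply,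
    phi_coeff_zero] at h2
  exact one_ne_zero h2.symm

private theorem FG_main (j : ℕ) (hj : j ≤ 4) :
    xx ^ (5 - j) = FG_Y j * (1 + 5 * xx + 15 * xx ^ 2 + 25 * xx ^ 3 + 25 * xx ^ 4) := by
  have h : ∀ j, j ≤ 4 → xx ^ j * FG_Y j = ex5 tt := by
    intro j
    induction j with
    | zero =>
      intro _
      rw [pow_zero, one_mul, FG_Y0]
    | succ j ih =>
      intro hj
      rw [← ih (by omega), ← FG_Ystep j hj]
      ring
  have h2 : xx ^ j * xx ^ (5 - j) =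
      xx ^ j * (FG_Y j * (1 + 5 * xx + 15 * xx ^ 2 + 25 * xx ^ 3 + 25 * xx ^ 4)) := by
    rw [← pow_add, ← mul_assoc, h j hj, ← modular_x]
    congr 1
    omega
  exact mul_left_cancel₀ (pow_ne_zero _ FG_ne) h2

private theorem FG_V5one : V5 0 (1 : ℤ⟦X⟧) = 1 := by
  have h : (1 : ℤ⟦X⟧) = ∑ s ∈ Finset.range 5, PowerSeries.X ^ s *
      ex5 (if s = 0 then 1 else 0) := by
    unfold ex5
    simp
  have h2 := FG_V5 0 (by omega) (fun s => if s = 0 then 1 else 0)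
  rw [← h] at h2
  exact h2.trans (if_pos rfl)

private theorem FG_five (a b c d e : ℤ⟦X⟧) :
    V5 0 (a + 5 * b + 15 * c + 25 * d + 25 * e) =
      V5 0 a + 5 * V5 0 b + 15 * V5 0 c + 25 * V5 0 d + 25 * V5 0 e := by
  have h5 := fun x : ℤ⟦X⟧ => FG_num 0 5 x
  have h15 := fun x : ℤ⟦X⟧ => FG_num 0 15 x
  have h25 := fun x : ℤ⟦X⟧ => FG_num 0 25 x
  simp only [Int.cast_ofNat] at h5 h15 h25
  rw [FG_add, FG_add, FG_add, FG_add, h5, h15, h25, h25]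

private theorem FG_Y1 : V5 0 (FG_Y 1) = -tt := by
  rw [FG_VY 1 (by omega) (by omega) (-1) (by rw [pow_one, FG_phi1]; push_cast; ring)]
  push_cast
  ring

private theorem FG_Y2 : V5 0 (FG_Y 2) = -tt := by
  rw [FG_VY 2 (by omega) (by omega) (-1) (by rw [FG_phi2]; push_cast; ring)]
  push_cast
  ring

private theorem FG_Y3 : V5 0 (FG_Y 3) = 5 * tt := by
  rw [FG_VY 3 (by omega) (by omega) 5 (by rw [FG_phi3]; push_cast; ring)]
  push_cast
  ring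

private theorem FG_Y4 : V5 0 (FG_Y 4) = -5 * tt := by
  rw [FG_VY 4 (by omega) (by omega) (-5) (by rw [FG_phi4]; push_cast; ring)]
  push_cast
  ring

private theorem FG_VY0 (g : ℤ⟦X⟧) : V5 0 (FG_Y 0 * g) = tt * V5 0 g := by
  rw [FG_Y0, V5_ex5_mul]

private theorem FG_VY00 : V5 0 (FG_Y 0) = tt := by
  have := FG_VY0 1
  rwa [mul_one, FG_V5one, mul_one] at this

private theorem FG_u1 : V5 0 (xx ^ 1) = 5 * tt := by
  have h := FG_main 4 le_rfl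
  have s4 := FG_Ystep 3 (by omega)
  have s3 := FG_Ystep 2 (by omega)
  have s2 := FG_Ystep 1 (by omega)
  have s1 := FG_Ystep 0 (by omega)
  have e : xx ^ 1 = FG_Y 4 + 5 * FG_Y 3 + 15 * FG_Y 2 + 25 * FG_Y 1 + 25 * FG_Y 0 := by
    refine (show xx ^ 1 = _ from h).trans ?_
    rw [← s1, ← s2, ← s3, ← s4]
    ring
  rw [e, FG_five, FG_Y4, FG_Y3, FG_Y2, FG_Y1, FG_VY00]
  ring

private theorem FG_u2 : V5 0 (xx ^ 2) = 10 * tt + 125 * tt ^ 2 := by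
  have h := FG_main 3 (by omega)
  have s3 := FG_Ystep 2 (by omega)
  have s2 := FG_Ystep 1 (by omega)
  have s1 := FG_Ystep 0 (by omega)
  have e : xx ^ 2 = FG_Y 3 + 5 * FG_Y 2 + 15 * FG_Y 1 + 25 * FG_Y 0 + 25 * (FG_Y 0 * xx ^ 1) := by
    refine (show xx ^ 2 = _ from h).trans ?_
    rw [← s1, ← s2, ← s3]
    ring
  rw [e, FG_five, FG_VY0, FG_Y3, FG_Y2, FG_Y1, FG_VY00, FG_u1]
  ring

private theorem FG_u3 : V5 0 (xx ^ 3) = 9 * tt + 375 * tt ^ 2 + 3125 * tt ^ 3 := by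
  have h := FG_main 2 (by omega)
  have s2 := FG_Ystep 1 (by omega)
  have s1 := FG_Ystep 0 (by omega)
  have e : xx ^ 3 = FG_Y 2 + 5 * FG_Y 1 + 15 * FG_Y 0 + 25 * (FG_Y 0 * xx ^ 1) +
      25 * (FG_Y 0 * xx ^ 2) := by
    refine (show xx ^ 3 = _ from h).trans ?_
    rw [← s1, ← s2]
    ring
  rw [e, FG_five, FG_VY0, FG_VY0, FG_Y2, FG_Y1, FG_VY00, FG_u1, FG_u2]
  ring

private theorem FG_u4 : V5 0 (xx ^ 4) =
    4 * tt + 550 * tt ^ 2 + 12500 * tt ^ 3 + 78125 * tt ^ 4 := by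
  have h := FG_main 1 (by omega)
  have s1 := FG_Ystep 0 (by omega)
  have e : xx ^ 4 = FG_Y 1 + 5 * FG_Y 0 + 15 * (FG_Y 0 * xx ^ 1) + 25 * (FG_Y 0 * xx ^ 2) +
      25 * (FG_Y 0 * xx ^ 3) := by
    refine (show xx ^ 4 = _ from h).trans ?_
    rw [← s1]
    ring
  rw [e, FG_five, FG_VY0, FG_VY0, FG_VY0, FG_Y1, FG_VY00, FG_u1, FG_u2, FG_u3]
  ring

theorem V5_xx (i : ℕ) : V5 0 (xx ^ i) = Polynomial.aeval tt (w i) := by
  induction i using Nat.strong_induction_on with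
  | _ i ih =>
    match i with
    | 0 => simp [w, FG_V5one]
    | 1 =>
      rw [FG_u1]
      simp [w, map_ofNat]
    | 2 =>
      rw [FG_u2]
      simp [w, map_ofNat]
    | 3 =>
      rw [FG_u3]
      simp [w, map_ofNat]
    | 4 =>
      rw [FG_u4]
      simp [w, map_ofNat]
    | (i + 5) =>
      have e : xx ^ (i + 5) = ex5 tt * (xx ^ i + 5 * xx ^ (i + 1) + 15 * xx ^ (i + 2) +
          25 * xx ^ (i + 3) + 25 * xx ^ (i + 4)) := by
        rw [pow_add, modular_x]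
        ring
      rw [e, V5_ex5_mul, FG_five, ih i (by omega), ih (i + 1) (by omega), ih (i + 2) (by omega),
        ih (i + 3) (by omega), ih (i + 4) (by omega)]
      simp only [w, map_mul, map_add, map_ofNat, Polynomial.aeval_X]
      ring

end Pool.Agent.B5F
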