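import Pool.Agent.B5F.Defs

/-!
B5F / FH: Watson's lemma: 5^floor((5j - i - 1)/2) divides the coefficient of w i at j (natural subtraction), which vanishes if 5j < i. Strong induction on i; e(i,j) = (5j-i-1)/2 satisfies e(i+5,j+1) = e(i,j),
e(i,j) <= e(i+1,j) + 1, e(i,j) <= e(i+2,j) + 1, e(i,j) <= e(i+3,j) + 2, e(i,j) <= e(i+4,j) + 2 (omega). `divX_coeff`: coefficients of the iterated divX. `opA_val`, `opB_val`, `opA_zero`: by linearity.
-/

set_option autoImplicit false

namespace Pool.Agent.B5F

open PowerSeries Pool.Agent.B5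

private theorem fh_coeff_succ (i j : ℕ) : (w (i + 5)).coeff (j + 1) =
    25 * (w (i + 4)).coeff j + 25 * (w (i + 3)).coeff j + 15 * (w (i + 2)).coeff j
      + 5 * (w (i + 1)).coeff j + (w i).coeff j := by
  have h5 : (5 : Polynomial ℤ) = Polynomial.C 5 := rfl
  have h15 : (15 : Polynomial ℤ) = Polynomial.C 15 := rfl
  have h25 : (25 : Polynomial ℤ) = Polynomial.C 25 := rfl
  rw [w, Polynomial.coeff_X_mul, h5, h15, h25]
  simp only [Polynomial.coeff_add, Polynomial.coeff_C_mul]

private theorem fh_coeff_zero (i : ℕ) : (w (i + 5)).coeff 0 = 0 := by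
  rw [w, Polynomial.mul_coeff_zero, Polynomial.coeff_X_zero, zero_mul]

private theorem fh_w1 (j : ℕ) : (w 1).coeff j = if j = 1 then 5 else 0 := by
  have h5 : (5 : Polynomial ℤ) = Polynomial.C 5 := rfl
  rw [w, h5, Polynomial.coeff_C_mul, Polynomial.coeff_X]
  by_cases h : j = 1
  · simp [h]
  · rw [if_neg (fun h' => h h'.symm), if_neg h, mul_zero]

private theorem fh_mono (a : ℤ) (k j : ℕ) : (Polynomial.C a * (Polynomial.X : Polynomial ℤ) ^ k).coeff j =
    if j = k then a else 0 := by
  rw [Polynomial.coeff_C_mul, Polynomial.coeff_X_pow]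
  split_ifs <;> simp

private theorem fh_mono1 (a : ℤ) (j : ℕ) : (Polynomial.C a * (Polynomial.X : Polynomial ℤ)).coeff j =
    if j = 1 then a else 0 := by
  have := fh_mono a 1 j
  rwa [pow_one] at this

private theorem fh_w2 (j : ℕ) : (w 2).coeff j = (if j = 1 then 10 else 0) + (if j = 2 then 125 else 0) := by
  have h1 : (10 : Polynomial ℤ) = Polynomial.C 10 := rfl
  have h2 : (125 : Polynomial ℤ) = Polynomial.C 125 := rfl
  rw [w, h1, h2, Polynomial.coeff_add, fh_mono1, fh_mono]

private theorem fh_w3 (j : ℕ) : (w 3).coeff j = (if j = 1 then 9 else 0) + (if j = 2 then 375 else 0)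
    + (if j = 3 then 3125 else 0) := by
  have h1 : (9 : Polynomial ℤ) = Polynomial.C 9 := rfl
  have h2 : (375 : Polynomial ℤ) = Polynomial.C 375 := rfl
  have h3 : (3125 : Polynomial ℤ) = Polynomial.C 3125 := rfl
  rw [w, h1, h2, h3, Polynomial.coeff_add, Polynomial.coeff_add, fh_mono1, fh_mono, fh_mono]

private theorem fh_w4 (j : ℕ) : (w 4).coeff j = (if j = 1 then 4 else 0) + (if j = 2 then 550 else 0)
    + (if j = 3 then 12500 else 0) + (if j = 4 then 78125 else 0) := by
  have h1 : (4 : Polynomial ℤ) = Polynomial.C 4 := rfl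
  have h2 : (550 : Polynomial ℤ) = Polynomial.C 550 := rfl
  have h3 : (12500 : Polynomial ℤ) = Polynomial.C 12500 := rfl
  have h4 : (78125 : Polynomial ℤ) = Polynomial.C 78125 := rfl
  rw [w, h1, h2, h3, h4, Polynomial.coeff_add, Polynomial.coeff_add, Polynomial.coeff_add,
    fh_mono1, fh_mono, fh_mono, fh_mono]


private theorem fh_step {a : ℤ} {e f : ℕ} (c : ℤ) (d : ℕ) (hc : (5 : ℤ) ^ d ∣ c) (h : e ≤ f + d)
    (ha : (5 : ℤ) ^ f ∣ a) : (5 : ℤ) ^ e ∣ c * a := by
  have h1 : (5 : ℤ) ^ (d + f) ∣ c * a := by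
    rw [pow_add]
    exact mul_dvd_mul hc ha
  exact dvd_trans (pow_dvd_pow 5 (by omega)) h1

theorem w_val (i j : ℕ) : (5 : ℤ) ^ ((5 * j - i - 1) / 2) ∣ (w i).coeff j := by
  induction i using Nat.strong_induction_on generalizing j with
  | _ i ih =>
    match i, ih with
    | 0, _ =>
      rw [w, Polynomial.coeff_one]
      rcases Nat.eq_zero_or_pos j with h | h
      · subst h
        simp
      · rw [if_neg (by omega)]
        exact dvd_zero _
    | 1, _ =>
      rw [fh_w1]
      split_ifs with h
      · subst h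
        norm_num
      · exact dvd_zero _
    | 2, _ =>
      rw [fh_w2]
      rcases (by omega : j = 1 ∨ j = 2 ∨ (j ≠ 1 ∧ j ≠ 2)) with h | h | ⟨h1, h2⟩
      · subst h
        norm_num
      · subst h
        norm_num
      · rw [if_neg h1, if_neg h2]
        exact dvd_zero _
    | 3, _ =>
      rw [fh_w3]
      rcases (by omega : j = 1 ∨ j = 2 ∨ j = 3 ∨ (j ≠ 1 ∧ j ≠ 2 ∧ j ≠ 3)) with h | h | h | ⟨h1, h2, h3⟩
      · subst h
        norm_num
      · subst h
        norm_num
      · subst h
        norm_num
      · rw [if_neg h1, if_neg h2, if_neg h3]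
        exact dvd_zero _
    | 4, _ =>
      rw [fh_w4]
      rcases (by omega : j = 1 ∨ j = 2 ∨ j = 3 ∨ j = 4 ∨ (j ≠ 1 ∧ j ≠ 2 ∧ j ≠ 3 ∧ j ≠ 4)) with
        h | h | h | h | ⟨h1, h2, h3, h4⟩
      · subst h
        norm_num
      · subst h
        norm_num
      · subst h
        norm_num
      · subst h
        norm_num
      · rw [if_neg h1, if_neg h2, if_neg h3, if_neg h4]
        exact dvd_zero _
    | (i + 5), ih =>
      rcases j with _ | j
      · rw [fh_coeff_zero]
        exact dvd_zero _
      · rw [fh_coeff_succ]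
        have e0 : (5 * (j + 1) - (i + 5) - 1) / 2 = (5 * j - i - 1) / 2 := by
          congr 1
          omega
        rw [e0]
        refine dvd_add (dvd_add (dvd_add (dvd_add ?_ ?_) ?_) ?_) ?_
        · exact fh_step 25 2 (by norm_num) (by omega) (ih (i + 4) (by omega) j)
        · exact fh_step 25 2 (by norm_num) (by omega) (ih (i + 3) (by omega) j)
        · exact fh_step 15 1 (by norm_num) (by omega) (ih (i + 2) (by omega) j)
        · exact fh_step 5 1 (by norm_num) (by omega) (ih (i + 1) (by omega) j)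
        · exact ih i (by omega) j

theorem w_zero (i j : ℕ) (h : 5 * j < i) : (w i).coeff j = 0 := by
  induction i using Nat.strong_induction_on generalizing j with
  | _ i ih =>
    match i, ih, h with
    | 0, _, h => omega
    | 1, _, h =>
      rw [fh_w1, if_neg (by omega)]
    | 2, _, h =>
      rw [fh_w2, if_neg (by omega), if_neg (by omega), add_zero]
    | 3, _, h =>
      rw [fh_w3, if_neg (by omega), if_neg (by omega), if_neg (by omega), add_zero, add_zero]
    | 4, _, h =>
      rw [fh_w4, if_neg (by omega), if_neg (by omega), if_neg (by omega), if_neg (by omega), add_zero, add_zero,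
        add_zero]
    | (i + 5), ih, h =>
      rcases j with _ | j
      · exact fh_coeff_zero i
      · rw [fh_coeff_succ, ih (i + 4) (by omega) j (by omega), ih (i + 3) (by omega) j (by omega),
          ih (i + 2) (by omega) j (by omega), ih (i + 1) (by omega) j (by omega), ih i (by omega) j (by omega)]
        norm_num

theorem divX_coeff (f : Polynomial ℤ) (k j : ℕ) : (Polynomial.divX^[k] f).coeff j = f.coeff (j + k) := by
  induction k generalizing j with
  | zero => simp
  | succ k ih =>
    rw [Function.iterate_succ_apply', Polynomial.coeff_divX, ih]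
    congr 1
    omega

end Pool.Agent.B5F
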