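import Pool.Agent.B5F.FG
import Pool.Agent.B5F.FH

/-!
B5F / FI: by linearity for P = X^i. xx^(6i+1) = X^(6i+1) sB^(6i+1) (ex5 sB)^(6i+1), so V5 0 of it is sB^(6i+1) * V5 0 (X^(5i) * X * (X^i sB^(6i+1))) = sB^(6i+1) X^i V5 0 (X * g), g = sB tt^i, and V5 0 (X g) = X V5 4 g.
On the other side it is aeval tt (w (6i+1)) = tt^(i+1) * aeval tt (divX^[i+1] (w (6i+1))) as the coefficients of w (6i+1) below i+1 vanish (w_zero), tt^(i+1) = X^(i+1) sB^(6i+6). Cancel X^(i+1) sB^(6i+1).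
Similarly xx^(6i+5): V5 0 of it is sB^(6i+5) X^(i+1) V5 0 (g), g = sB^5 tt^i.
-/

set_option autoImplicit false

namespace Pool.Agent.B5F

open PowerSeries Pool.Agent.B5

private theorem fi_ex5_X : ex5 (PowerSeries.X : ℤ⟦X⟧) = PowerSeries.X ^ 5 := by
  unfold ex5
  exact PowerSeries.expand_X _ _

private theorem fi_ex5_pow (c : ℤ⟦X⟧) (n : ℕ) : ex5 c ^ n = ex5 (c ^ n) := by
  unfold ex5
  exact (map_pow _ _ _).symm

private theorem fi_sB_ne : sB ≠ 0 := by
  intro h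
  have h1 := congrArg (PowerSeries.coeff 0) h
  unfold sB at h1
  rw [PowerSeries.coeff_mk, map_zero] at h1
  have h2 : b5 0 = 1 := by
    unfold b5
    decide
  rw [h2] at h1
  norm_num at h1

private theorem fi_V_add (r : ℕ) (c d : ℤ⟦X⟧) : V5 r (c + d) = V5 r c + V5 r d := by
  unfold V5
  ext n
  simp

private theorem fi_V_C (r : ℕ) (a : ℤ) (c : ℤ⟦X⟧) :
    V5 r ((a : ℤ⟦X⟧) * c) = (a : ℤ⟦X⟧) * V5 r c := by
  unfold V5
  ext n
  have h : ∀ d : ℤ⟦X⟧, ∀ m, PowerSeries.coeff m ((a : ℤ⟦X⟧) * d) = a * PowerSeries.coeff m d := by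
    intro d m
    rw [← zsmul_eq_mul, map_zsmul, smul_eq_mul]
  rw [PowerSeries.coeff_mk, h, h, PowerSeries.coeff_mk]

private theorem fi_V_X (c : ℤ⟦X⟧) : V5 0 (PowerSeries.X * c) = PowerSeries.X * V5 4 c := by
  unfold V5
  ext n
  rcases n with _ | n
  · simp
  · rw [PowerSeries.coeff_mk, PowerSeries.coeff_succ_X_mul, PowerSeries.coeff_mk]
    have : 5 * (n + 1) + 0 = (5 * n + 4) + 1 := by ring
    rw [this, PowerSeries.coeff_succ_X_mul]

private theorem fi_divX (f : Polynomial ℤ) (m : ℕ) (h : ∀ j < m, f.coeff j = 0) :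
    Polynomial.aeval tt f = tt ^ m * Polynomial.aeval tt (Polynomial.divX^[m] f) := by
  have h1 : f = Polynomial.X ^ m * Polynomial.divX^[m] f := by
    ext j
    rw [Polynomial.coeff_X_pow_mul']
    split_ifs with hj
    · rw [divX_coeff, Nat.sub_add_cancel hj]
    · exact h j (by omega)
  conv_lhs => rw [h1]
  rw [map_mul, map_pow, Polynomial.aeval_X]

private theorem fi_A (i : ℕ) : V5 4 (sB * tt ^ i) =
    sB ^ 5 * Polynomial.aeval tt (Polynomial.divX^[i + 1] (w (6 * i + 1))) := by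
  have h1 := V5_xx (6 * i + 1)
  rw [fi_divX (w (6 * i + 1)) (i + 1) (fun j hj => w_zero _ _ (by omega))] at h1
  have h2 : xx ^ (6 * i + 1) =
      ex5 (sB ^ (6 * i + 1)) * (ex5 (PowerSeries.X ^ i) * (PowerSeries.X * (sB * tt ^ i))) := by
    rw [← fi_ex5_pow, ← fi_ex5_pow, fi_ex5_X]
    unfold xx tt
    ring
  rw [h2, V5_ex5_mul, V5_ex5_mul, fi_V_X] at h1
  have h3 : (PowerSeries.X : ℤ⟦X⟧) ^ (i + 1) * sB ^ (6 * i + 1) ≠ 0 :=
    mul_ne_zero (pow_ne_zero _ PowerSeries.X_ne_zero) (pow_ne_zero _ fi_sB_ne)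
  refine mul_left_cancel₀ h3 ?_
  have h4 : tt ^ (i + 1) = PowerSeries.X ^ (i + 1) * sB ^ (6 * i + 1) * sB ^ 5 := by
    unfold tt
    ring
  rw [h4] at h1
  calc (PowerSeries.X : ℤ⟦X⟧) ^ (i + 1) * sB ^ (6 * i + 1) * V5 4 (sB * tt ^ i)
      = sB ^ (6 * i + 1) * (PowerSeries.X ^ i * (PowerSeries.X * V5 4 (sB * tt ^ i))) := by ring
    _ = _ := by rw [h1]; ring

private theorem fi_B (i : ℕ) : V5 0 (sB ^ 5 * tt ^ i) =
    sB * Polynomial.aeval tt (Polynomial.divX^[i + 1] (w (6 * i + 5))) := by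
  have h1 := V5_xx (6 * i + 5)
  rw [fi_divX (w (6 * i + 5)) (i + 1) (fun j hj => w_zero _ _ (by omega))] at h1
  have h2 : xx ^ (6 * i + 5) =
      ex5 (sB ^ (6 * i + 5)) * (ex5 (PowerSeries.X ^ (i + 1)) * (sB ^ 5 * tt ^ i)) := by
    rw [← fi_ex5_pow, ← fi_ex5_pow, fi_ex5_X]
    unfold xx tt
    ring
  rw [h2, V5_ex5_mul, V5_ex5_mul] at h1
  have h3 : (PowerSeries.X : ℤ⟦X⟧) ^ (i + 1) * sB ^ (6 * i + 5) ≠ 0 :=
    mul_ne_zero (pow_ne_zero _ PowerSeries.X_ne_zero) (pow_ne_zero _ fi_sB_ne)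
  refine mul_left_cancel₀ h3 ?_
  have h4 : tt ^ (i + 1) = PowerSeries.X ^ (i + 1) * sB ^ (6 * i + 5) * sB := by
    unfold tt
    ring
  rw [h4] at h1
  calc (PowerSeries.X : ℤ⟦X⟧) ^ (i + 1) * sB ^ (6 * i + 5) * V5 0 (sB ^ 5 * tt ^ i)
      = sB ^ (6 * i + 5) * (PowerSeries.X ^ (i + 1) * V5 0 (sB ^ 5 * tt ^ i)) := by ring
    _ = _ := by rw [h1]; ring

private theorem fi_opA_add (P Q : Polynomial ℤ) : opA (P + Q) = opA P + opA Q := by
  unfold opA
  exact Polynomial.sum_add_index _ _ _ (fun i => by simp) (fun i a b => by simp [add_mul])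

private theorem fi_opB_add (P Q : Polynomial ℤ) : opB (P + Q) = opB P + opB Q := by
  unfold opB
  exact Polynomial.sum_add_index _ _ _ (fun i => by simp) (fun i a b => by simp [add_mul])

theorem opA_spec (P : Polynomial ℤ) : V5 4 (sB * Polynomial.aeval tt P) = sB ^ 5 * Polynomial.aeval tt (opA P) := by
  induction P using Polynomial.induction_on' with
  | add P Q hP hQ => rw [map_add, mul_add, fi_V_add, hP, hQ, fi_opA_add, map_add, mul_add]
  | monomial n a =>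
    have h1 : opA (Polynomial.monomial n a) =
        Polynomial.C a * Polynomial.divX^[n + 1] (w (6 * n + 1)) := by
      unfold opA
      exact Polynomial.sum_monomial_index _ _ (by simp)
    rw [h1, Polynomial.aeval_monomial, map_mul, Polynomial.aeval_C]
    have h2 : (algebraMap ℤ ℤ⟦X⟧) a = (a : ℤ⟦X⟧) := by simp
    rw [h2]
    have h3 : sB * ((a : ℤ⟦X⟧) * tt ^ n) = (a : ℤ⟦X⟧) * (sB * tt ^ n) := by ring
    rw [h3, fi_V_C, fi_A]
    ring

theorem opB_spec (P : Polynomial ℤ) : V5 0 (sB ^ 5 * Polynomial.aeval tt P) = sB * Polynomial.aeval tt (opB P) := by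
  induction P using Polynomial.induction_on' with
  | add P Q hP hQ => rw [map_add, mul_add, fi_V_add, hP, hQ, fi_opB_add, map_add, mul_add]
  | monomial n a =>
    have h1 : opB (Polynomial.monomial n a) =
        Polynomial.C a * Polynomial.divX^[n + 1] (w (6 * n + 5)) := by
      unfold opB
      exact Polynomial.sum_monomial_index _ _ (by simp)
    rw [h1, Polynomial.aeval_monomial, map_mul, Polynomial.aeval_C]
    have h2 : (algebraMap ℤ ℤ⟦X⟧) a = (a : ℤ⟦X⟧) := by simp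
    rw [h2]
    have h3 : sB ^ 5 * ((a : ℤ⟦X⟧) * tt ^ n) = (a : ℤ⟦X⟧) * (sB ^ 5 * tt ^ n) := by ring
    rw [h3, fi_V_C, fi_B]
    ring

/-- the coefficients at `n` are those of `sB` at `25^r n + (25^r - 1)/6` -/
theorem PP_coeff (r n : ℕ) : PowerSeries.coeff n (sB * Polynomial.aeval tt (PP r)) =
    (b5 (25 ^ r * n + (25 ^ r - 1) / 6) : ℤ) := by
  induction r generalizing n with
  | zero =>
    have h : PP 0 = 1 := rfl
    rw [h, map_one, mul_one]
    unfold sB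
    rw [PowerSeries.coeff_mk]
    simp
  | succ r ih =>
    have h : PP (r + 1) = opB (opA (PP r)) := rfl
    rw [h, ← opB_spec, ← opA_spec]
    have h1 : ∀ (r' m : ℕ) (c : ℤ⟦X⟧), PowerSeries.coeff m (V5 r' c) =
        PowerSeries.coeff (5 * m + r') c := by
      intro r' m c
      unfold V5
      rw [PowerSeries.coeff_mk]
    rw [h1, h1, ih]
    have h2 : 1 ≤ 25 ^ r := Nat.one_le_pow _ _ (by norm_num)
    have h3 : 25 ^ r * (5 * (5 * n + 0) + 4) + (25 ^ r - 1) / 6 =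
        25 ^ (r + 1) * n + (25 ^ (r + 1) - 1) / 6 := by
      rw [pow_succ]
      generalize 25 ^ r = x at *
      have h4 : x * (5 * (5 * n + 0) + 4) = x * 25 * n + 4 * x := by ring
      have h5 : (x * 25 - 1) / 6 = 4 * x + (x - 1) / 6 := by omega
      rw [h4, h5]
      ring
    rw [h3]

end Pool.Agent.B5F
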