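import Pool.Agent.B5F.FH

/-!
B5F / FJ: induction on r. The coefficient of PP (r+1) at j is the sum over i, l of (PP r)_i * (w (6i+1))_(l+i+1) * (w (6l+5))_(j+l+1), with exponents r + (5i-1)/2 + (5l-i+3)/2 + (5j-l-1)/2 >= r + 1 + (5j-1)/2 by omega
(natural subtraction and division; (5(l+i+1) - (6i+1) - 1)/2 = (5l+3-i)/2, (5(j+l+1)-(6l+5)-1)/2 = (5j-l-1)/2). For j = 0: (w (6l+5))_(l+1) = 0 unless l = 0 (w_zero), where it is 1
((w 5)_1 = 1), and (w 1)_1 = 5; for i >= 1 the exponent is at least r + 2.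
-/

set_option autoImplicit false

namespace Pool.Agent.B5F

open PowerSeries Pool.Agent.B5

private theorem fj_A (P : Polynomial ℤ) (l : ℕ) : (opA P).coeff l =
    ∑ i ∈ Finset.range (P.natDegree + 1), P.coeff i * (w (6 * i + 1)).coeff (l + (i + 1)) := by
  unfold opA
  rw [Polynomial.sum_over_range _ (fun n => by simp), Polynomial.finset_sum_coeff]
  apply Finset.sum_congr rfl
  intro i _
  rw [Polynomial.coeff_C_mul, divX_coeff]

private theorem fj_B (P : Polynomial ℤ) (j : ℕ) : (opB P).coeff j =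
    ∑ l ∈ Finset.range (P.natDegree + 1), P.coeff l * (w (6 * l + 5)).coeff (j + (l + 1)) := by
  unfold opB
  rw [Polynomial.sum_over_range _ (fun n => by simp), Polynomial.finset_sum_coeff]
  apply Finset.sum_congr rfl
  intro i _
  rw [Polynomial.coeff_C_mul, divX_coeff]

private theorem fj_term {a b : ℤ} {m n e : ℕ} (ha : (5 : ℤ) ^ m ∣ a) (hb : (5 : ℤ) ^ n ∣ b)
    (h : e ≤ m + n) : (5 : ℤ) ^ e ∣ a * b := by
  refine (pow_dvd_pow 5 h).trans ?_
  rw [pow_add]
  exact mul_dvd_mul ha hb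

private theorem fj_Aval {P : Polynomial ℤ} {r : ℕ}
    (hP : ∀ i, (5 : ℤ) ^ (r + (5 * i - 1) / 2) ∣ P.coeff i) (l : ℕ) :
    (5 : ℤ) ^ (r + (5 * l + 3) / 2) ∣ (opA P).coeff l := by
  rw [fj_A]
  apply Finset.dvd_sum
  intro i _
  by_cases h : 5 * (l + (i + 1)) < 6 * i + 1
  · rw [w_zero _ _ h, mul_zero]
    exact dvd_zero _
  · exact fj_term (hP i) (w_val (6 * i + 1) (l + (i + 1))) (by omega)

private theorem fj_Bval {P : Polynomial ℤ} {r : ℕ}
    (hP : ∀ i, (5 : ℤ) ^ (r + (5 * i + 3) / 2) ∣ P.coeff i) (j : ℕ) :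
    (5 : ℤ) ^ (r + 1 + (5 * j - 1) / 2) ∣ (opB P).coeff j := by
  rw [fj_B]
  apply Finset.dvd_sum
  intro l _
  by_cases h : 5 * (j + (l + 1)) < 6 * l + 5
  · rw [w_zero _ _ h, mul_zero]
    exact dvd_zero _
  · exact fj_term (hP l) (w_val (6 * l + 5) (j + (l + 1))) (by omega)

theorem PP_val (r j : ℕ) : (5 : ℤ) ^ (r + (5 * j - 1) / 2) ∣ (PP r).coeff j := by
  induction r generalizing j with
  | zero =>
    cases j with
    | zero => simp
    | succ j =>
      have h : (PP 0).coeff (j + 1) = 0 := by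
        change (1 : Polynomial ℤ).coeff (j + 1) = 0
        rw [Polynomial.coeff_one]
        simp
      rw [h]
      exact dvd_zero _
  | succ r ih => exact fj_Bval (fun i => fj_Aval ih i) j

theorem PP_zero (r : ℕ) : ∃ u : ℤ, (PP r).coeff 0 = 5 ^ r * u ∧ (5 : ℤ) ∣ u - 1 := by
  induction r with
  | zero =>
    refine ⟨1, ?_, by norm_num⟩
    change (1 : Polynomial ℤ).coeff 0 = _
    simp
  | succ r ih =>
    obtain ⟨u, hu, hu5⟩ := ih
    have hw5 : (w 5).coeff 1 = 1 := by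
      change (Polynomial.X * (25 * w 4 + 25 * w 3 + 15 * w 2 + 5 * w 1 + w 0)).coeff (0 + 1) = 1
      rw [Polynomial.coeff_X_mul]
      simp [w, Polynomial.coeff_zero_eq_eval_zero]
    have hw1 : (w 1).coeff 1 = 5 := by
      change (5 * Polynomial.X : Polynomial ℤ).coeff 1 = 5
      have : (5 * Polynomial.X : Polynomial ℤ) = Polynomial.C 5 * Polynomial.X := by simp
      rw [this, Polynomial.coeff_C_mul, Polynomial.coeff_X_one, mul_one]
    have h1 : (PP (r + 1)).coeff 0 = (opA (PP r)).coeff 0 := by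
      change (opB (opA (PP r))).coeff 0 = _
      rw [fj_B, Finset.sum_range_succ']
      have h2 : ∑ l ∈ Finset.range (opA (PP r)).natDegree, (opA (PP r)).coeff (l + 1) *
          (w (6 * (l + 1) + 5)).coeff (0 + (l + 1 + 1)) = 0 := by
        apply Finset.sum_eq_zero
        intro l _
        rw [w_zero _ _ (by omega), mul_zero]
      rw [h2, zero_add]
      change (opA (PP r)).coeff 0 * (w 5).coeff 1 = _
      rw [hw5, mul_one]
    have h3 : (5 : ℤ) ^ (r + 2) ∣ ∑ i ∈ Finset.range (PP r).natDegree, (PP r).coeff (i + 1) *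
          (w (6 * (i + 1) + 1)).coeff (0 + (i + 1 + 1)) := by
      apply Finset.dvd_sum
      intro i _
      exact fj_term (PP_val r (i + 1)) (w_val (6 * (i + 1) + 1) (0 + (i + 1 + 1))) (by omega)
    obtain ⟨z, hz⟩ := h3
    have h4 : (opA (PP r)).coeff 0 = 5 ^ (r + 2) * z + (PP r).coeff 0 * 5 := by
      rw [fj_A, Finset.sum_range_succ', hz]
      congr 1
      change (PP r).coeff 0 * (w 1).coeff 1 = _
      rw [hw1]
    obtain ⟨y, hy⟩ := hu5
    refine ⟨u + 5 * z, ?_, ⟨y + z, ?_⟩⟩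
    · rw [h1, h4, hu]
      ring
    · linarith

end Pool.Agent.B5F
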