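import Pool.Agent.B5F.FI
import Pool.Agent.B5F.FJ

/-!
B5F / FK: PP r = C ((PP r).coeff 0) + X * R with all coefficients of R divisible by 5^(r+2) (PP_val, j >= 1), so sB * aeval tt (PP r) = (PP r).coeff 0 * sB + 5^(r+2) * (a power series), compare coefficients at n
(PP_coeff).
-/

set_option autoImplicit false

namespace Pool.Agent.B5F

open PowerSeries Pool.Agent.B5

theorem b5_val (r n : ℕ) : ∃ u : ℤ, (5 : ℤ) ∣ u - 1 ∧
    (5 : ℤ) ^ (r + 2) ∣ (b5 (25 ^ r * n + (25 ^ r - 1) / 6) : ℤ) - 5 ^ r * u * b5 n := by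
  obtain ⟨u, hu, hu1⟩ := PP_zero r
  refine ⟨u, hu1, ?_⟩
  have h1 : Polynomial.C ((5 : ℤ) ^ (r + 2)) ∣ PP r - Polynomial.C ((PP r).coeff 0) := by
    rw [Polynomial.C_dvd_iff_dvd_coeff]
    intro j
    rw [Polynomial.coeff_sub, Polynomial.coeff_C]
    split_ifs with hj
    · rw [hj, sub_self]; exact dvd_zero _
    · rw [sub_zero]
      exact (pow_dvd_pow _ (by omega)).trans (PP_val r j)
  obtain ⟨R, hR⟩ := h1
  have h2 : PP r = Polynomial.C ((PP r).coeff 0) + Polynomial.C ((5 : ℤ) ^ (r + 2)) * R := by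
    rw [← hR]; ring
  have h3 := PP_coeff r n
  have h4 : sB * Polynomial.aeval tt (PP r) = ((5 ^ r * u : ℤ) : ℤ⟦X⟧) * sB +
      ((5 ^ (r + 2) : ℤ) : ℤ⟦X⟧) * (sB * Polynomial.aeval tt R) := by
    have hC : ∀ a : ℤ, (algebraMap ℤ ℤ⟦X⟧) a = (a : ℤ⟦X⟧) := fun a => by simp
    conv_lhs => rw [h2]
    rw [map_add, map_mul, Polynomial.aeval_C, Polynomial.aeval_C, hC, hC, hu]
    ring
  have h5 : ∀ (a : ℤ) (d : ℤ⟦X⟧), PowerSeries.coeff n ((a : ℤ⟦X⟧) * d) =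
      a * PowerSeries.coeff n d := by
    intro a d
    rw [← zsmul_eq_mul, map_zsmul, smul_eq_mul]
  rw [h4, map_add, h5, h5] at h3
  have h6 : PowerSeries.coeff n sB = (b5 n : ℤ) := by
    unfold sB
    rw [PowerSeries.coeff_mk]
  rw [h6] at h3
  rw [← h3]
  exact ⟨PowerSeries.coeff n (sB * Polynomial.aeval tt R), by ring⟩

end Pool.Agent.B5F
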