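import Pool.Agent.B5F.FK
import Pool.Agent.B5Z.MY

/-!
B5F / FZ: assembly: all residue classes modulo 5^k and 2 * 5^k.
-/

set_option autoImplicit false

namespace Pool.Agent.B5F

open PowerSeries Pool.Agent.B5

/-- the index -/
def idx (v n : ℕ) : ℕ := 25 ^ v * n + (25 ^ v - 1) / 6

theorem idx_mod (v : ℕ) : 25 ^ v % 12 = 1 := by
  rw [Nat.pow_mod]
  norm_num

theorem idx_spec (v n : ℕ) : 6 * idx v n + 1 = 25 ^ v * (6 * n + 1) := by
  have h := idx_mod v
  unfold idx
  have h2 : 6 * ((25 ^ v - 1) / 6) + 1 = 25 ^ v := by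
    generalize 25 ^ v = z at h
    omega
  calc 6 * (25 ^ v * n + (25 ^ v - 1) / 6) + 1 = 25 ^ v * (6 * n) + (6 * ((25 ^ v - 1) / 6) + 1) := by ring
    _ = 25 ^ v * (6 * n + 1) := by rw [h2]; ring

theorem idx_even (v n : ℕ) (hn : Even n) : Even (idx v n) := by
  have h := idx_mod v
  unfold idx
  apply Even.add (hn.mul_left _)
  rw [Nat.even_iff]
  generalize 25 ^ v = z at h
  omega

theorem b5_two : b5 2 = 2 := by
  have h := id_B1
  have c0 : PowerSeries.coeff 0 phi = 1 := by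
    have h := PowerSeries.coeff_pentagonalSeries_pentagonal ℤ 0
    have h0 : pentagonal 0 = 0 := by simp [pentagonal]
    rw [h0] at h
    rw [phi, h]
    simp
  have c1 : PowerSeries.coeff 1 phi = -1 := by
    have h := PowerSeries.coeff_pentagonalSeries_pentagonal ℤ 1
    have h0 : pentagonal 1 = 1 := by simp [pentagonal]
    rw [h0] at h
    rw [phi, h]
    simp
  have c2 : PowerSeries.coeff 2 phi = -1 := by
    have h := PowerSeries.coeff_pentagonalSeries_pentagonal ℤ (-1)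
    have h0 : pentagonal (-1) = 2 := by simp [pentagonal]
    rw [h0] at h
    rw [phi, h]
    simp
  have e1 := congrArg (PowerSeries.coeff 1) h
  have e2 := congrArg (PowerSeries.coeff 2) h
  rw [PowerSeries.coeff_mul, Finset.Nat.sum_antidiagonal_eq_sum_range_succ_mk] at e1 e2
  rw [ex5, PowerSeries.coeff_expand] at e1 e2
  simp only [Finset.sum_range_succ, Finset.range_zero, Finset.sum_empty, sB, PowerSeries.coeff_mk] at e1 e2
  norm_num [c0, c1, c2, b5_zero] at e1 e2
  omega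

theorem gcd_five (k v n : ℕ) (hv : v ≤ k) (hn : ¬ 5 ∣ b5 n) : Nat.gcd (b5 (idx v n)) (5 ^ k) = 5 ^ v := by
  obtain ⟨u, hu, hd⟩ := b5_val v n
  obtain ⟨c, hc⟩ := hd
  obtain ⟨e, he⟩ := hu
  have h1 : (b5 (idx v n) : ℤ) = 5 ^ v * (u * b5 n + 25 * c) := by
    have h2 : (b5 (idx v n) : ℤ) = 5 ^ v * u * b5 n + 5 ^ (v + 2) * c := by
      unfold idx
      linarith
    rw [h2, pow_add]
    ring
  obtain ⟨y, hy⟩ : ∃ y : ℕ, b5 (idx v n) = 5 ^ v * y := by
    have h3 : ((5 ^ v : ℕ) : ℤ) ∣ (b5 (idx v n) : ℤ) := ⟨_, by rw [h1]; push_cast; rfl⟩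
    exact Int.natCast_dvd_natCast.mp h3
  have h4 : (y : ℤ) = u * b5 n + 25 * c := by
    have h5 : ((5 : ℤ) ^ v) * y = 5 ^ v * (u * b5 n + 25 * c) := by
      rw [← h1, hy]
      push_cast
      ring
    exact mul_left_cancel₀ (pow_ne_zero v (by norm_num)) h5
  have h6 : ¬ 5 ∣ y := by
    intro h
    have h7 : (5 : ℤ) ∣ (y : ℤ) := by exact_mod_cast h
    have h8 : (5 : ℤ) ∣ (b5 n : ℤ) := by
      have e1 : (b5 n : ℤ) = y - (u - 1) * b5 n - 5 * (5 * c) := by rw [h4]; ring
      rw [e1, he]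
      exact dvd_sub (dvd_sub h7 (Dvd.dvd.mul_right (dvd_mul_right _ _) _)) (dvd_mul_right _ _)
    exact hn (by exact_mod_cast h8)
  obtain ⟨j, rfl⟩ := Nat.exists_eq_add_of_le hv
  rw [hy, pow_add, Nat.gcd_mul_left]
  have h9 : Nat.Coprime y (5 ^ j) :=
    Nat.Coprime.pow_right j ((Nat.Prime.coprime_iff_not_dvd Nat.prime_five).mpr h6).symm
  rw [h9, mul_one]

theorem main_fives (a k : ℕ) (ha : a = 1 ∨ a = 2) (i : ℤ) :
    {n : ℕ | (b5 n : ℤ) ≡ i [ZMOD ((a * 5 ^ k : ℕ) : ℤ)]}.Infinite := by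
  have ha0 : 0 < a := by omega
  have hpos : 0 < a * 5 ^ k := by positivity
  have hp : ∀ p : ℕ, p.Prime → p ∣ a * 5 ^ k → p = 2 ∨ p = 5 := by
    intro p hp h
    rcases (Nat.Prime.dvd_mul hp).mp h with h | h
    · rcases ha with h' | h'
      · rw [h'] at h
        exact absurd (Nat.dvd_one.mp h) hp.one_lt.ne'
      · rw [h'] at h
        exact Or.inl ((Nat.prime_dvd_prime_iff_eq hp Nat.prime_two).mp h)
    · exact Or.inr ((Nat.prime_dvd_prime_iff_eq hp Nat.prime_five).mp (hp.dvd_of_dvd_pow h))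
  have h3 : ¬ 3 ∣ a * 5 ^ k := by
    intro h
    have := hp 3 (by norm_num) h
    omega
  have hco : Nat.Coprime a (5 ^ k) := by
    apply Nat.Coprime.pow_right
    rcases ha with h | h <;> rw [h] <;> norm_num
  obtain ⟨v, hv, hgv⟩ := (Nat.dvd_prime_pow Nat.prime_five).mp (Nat.gcd_dvd_right i.natAbs (5 ^ k))
  have key : ∀ n1 : ℕ, Even n1 → ¬ 5 ∣ b5 n1 → Nat.gcd (b5 (idx v n1)) a = Nat.gcd i.natAbs a →
      {n : ℕ | (b5 n : ℤ) ≡ i [ZMOD ((a * 5 ^ k : ℕ) : ℤ)]}.Infinite := by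
    intro n1 he h5 hga
    refine Pool.Agent.B5Z.main_all' (a * 5 ^ k) hpos h3 (idx v n1) ⟨fun _ => idx_even v n1 he, ?_⟩ i (Or.inl ?_)
    · intro p hpp hpm h7
      have := hp p hpp hpm
      omega
    · have e1 : Int.gcd i ((a * 5 ^ k : ℕ) : ℤ) = Nat.gcd i.natAbs (a * 5 ^ k) := by
        rw [Int.gcd_def, Int.natAbs_natCast]
      rw [e1, Nat.Coprime.gcd_mul _ hco, Nat.Coprime.gcd_mul _ hco, hga, hgv, gcd_five k v n1 hv h5]
  rcases ha with h | h
  · subst h
    refine key 0 Even.zero ?_ ?_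
    · rw [b5_zero]
      norm_num
    · simp
  · subst h
    by_cases hi : 2 ∣ i.natAbs
    · refine key 2 even_two ?_ ?_
      · rw [b5_two]
        norm_num
      · have h1 : ¬ IsSquare (6 * idx v 2 + 1) := by
          rw [idx_spec]
          rintro ⟨r, hr⟩
          have h2 : (5 ^ v) ∣ r := by
            have h3 : (5 ^ v) ^ 2 ∣ r ^ 2 := by
              refine ⟨13, ?_⟩
              rw [sq r, ← hr, ← pow_mul, mul_comm v 2, pow_mul]
              norm_num
            exact (Nat.pow_dvd_pow_iff (by norm_num)).mp h3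
          obtain ⟨s, hs⟩ := h2
          have h4 : s * s = 13 := by
            have h5 : (5 ^ v * 5 ^ v) * 13 = (5 ^ v * 5 ^ v) * (s * s) := by
              have h6 : (25 : ℕ) ^ v = 5 ^ v * 5 ^ v := by rw [← mul_pow]; norm_num
              rw [h6, hs] at hr
              linarith
            exact (Nat.eq_of_mul_eq_mul_left (by positivity) h5).symm
          have h7 : s < 4 := by nlinarith
          interval_cases s <;> omega
        have h2 := (Pool.Agent.B5X.parity_sq (idx v 2) (idx_even v 2 even_two)).not.mpr h1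
        rw [not_not] at h2
        rw [Nat.gcd_eq_right h2, Nat.gcd_eq_right hi]
    · refine key 0 Even.zero ?_ ?_
      · rw [b5_zero]
        norm_num
      · have h1 : IsSquare (6 * idx v 0 + 1) := by
          rw [idx_spec]
          exact ⟨5 ^ v, by rw [← mul_pow]; norm_num⟩
        have h2 := (Pool.Agent.B5X.parity_sq (idx v 0) (idx_even v 0 Even.zero)).mpr h1
        have e1 : Nat.gcd (b5 (idx v 0)) 2 = 1 :=
          Nat.Coprime.symm ((Nat.Prime.coprime_iff_not_dvd Nat.prime_two).mpr h2)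
        have e2 : Nat.gcd i.natAbs 2 = 1 :=
          Nat.Coprime.symm ((Nat.Prime.coprime_iff_not_dvd Nat.prime_two).mpr hi)
        rw [e1, e2]

end Pool.Agent.B5F
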